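import Pool.Agent.H657.CL.VT

set_option autoImplicit false
set_option linter.unusedSectionVars false
set_option linter.deprecated false
set_option linter.style.haveILetI false

/-!
Countable algebras closed under Vaught transforms which form a basis of a Polish topology.
-/

namespace Pool.Agent.H657.CL

open Set Filter Topology MeasureTheory TopologicalSpace

section ref

variable {X : Type*} [m : MeasurableSpace X]

theorem refine_one {t : TopologicalSpace X} (hp : @PolishSpace X t)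
    (hb : @borel X t = m) (F : ℕ → Set X) (hF : ∀ n, MeasurableSet (F n)) :
    ∃ t' : TopologicalSpace X, t' ≤ t ∧ @PolishSpace X t' ∧ @borel X t' = m ∧
      ∀ n, IsOpen[t'] (F n) := by
  haveI : @BorelSpace X t m := @BorelSpace.mk X t m hb.symm
  have h1 : ∀ n, ∃ t' : TopologicalSpace X, t' ≤ t ∧ @PolishSpace X t' ∧ IsClosed[t'] (F n) ∧
      IsOpen[t'] (F n) := fun n => MeasurableSet.isClopenable (hF n)
  choose s hs1 hs2 hs3 hs4 using h1
  obtain ⟨t', h1, h2, h3⟩ := PolishSpace.exists_polishSpace_forall_le s hs1 hs2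
  refine ⟨t', h2, h3, ?_, fun n => h1 n _ (hs4 n)⟩
  rw [borel_eq_borel_of_le h3 hp h2, hb]

end ref

variable (G : Type*) [TopologicalSpace G] [Group G] [IsTopologicalGroup G] [PolishSpace G]
  [MeasurableSpace G] [BorelSpace G]
variable {X : Type*} [m : MeasurableSpace X] [MulAction G X] [MeasurableSMul₂ G X]

/-- a countable algebra of Borel sets, closed under Vaught transforms, which is a basis of a
Polish topology with the given Borel sets -/
structure Good (A : Set (Set X)) : Prop where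
  countable : A.Countable
  meas : ∀ s ∈ A, MeasurableSet s
  unv : univ ∈ A
  compl : ∀ s ∈ A, sᶜ ∈ A
  inter : ∀ s ∈ A, ∀ t ∈ A, s ∩ t ∈ A
  vt : ∀ s ∈ A, ∀ k, Vt s (bas G k) ∈ A
  polish : @PolishSpace X (TopologicalSpace.generateFrom A)
  borel : @borel X (TopologicalSpace.generateFrom A) = m

/-- one step of the construction -/
structure St (X : Type*) [m : MeasurableSpace X] where
  t : TopologicalSpace X
  s : Set (Set X)
  polish : @PolishSpace X t
  borel : @borel X t = m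
  countable : s.Countable
  meas : ∀ a ∈ s, MeasurableSet a

theorem exists_step (p : St X) : ∃ q : St X, q.t ≤ p.t ∧ (∀ a ∈ p.s, IsOpen[q.t] a) ∧
    p.s ⊆ q.s ∧ (∀ a ∈ p.s, aᶜ ∈ q.s) ∧ (∀ a ∈ p.s, ∀ b ∈ p.s, a ∩ b ∈ q.s) ∧
    (∀ a ∈ p.s, ∀ k, Vt a (bas G k) ∈ q.s) ∧ univ ∈ q.s ∧
    ∃ B ⊆ q.s, q.t = generateFrom B := by
  have hc : (insert (univ : Set X) p.s).Countable := p.countable.insert _
  obtain ⟨f, hf⟩ := hc.exists_eq_range ⟨_, mem_insert _ _⟩
  obtain ⟨t, h1, h2, h3, h4⟩ := refine_one p.polish p.borel f (fun n => by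
    have : f n ∈ insert (univ : Set X) p.s := hf ▸ mem_range_self n
    rcases this with h | h
    · rw [h]; exact MeasurableSet.univ
    · exact p.meas _ h)
  letI := t
  haveI := h2
  haveI : BorelSpace X := ⟨h3.symm⟩
  refine ⟨⟨t, insert univ p.s ∪ compl '' p.s ∪ image2 (fun a b => a ∩ b) p.s p.s ∪
    (image2 (fun a k => Vt a (bas G k)) p.s univ) ∪ countableBasis X, h2, h3, ?_, ?_⟩,
    h1, ?_, ?_, ?_, ?_, ?_, ?_, countableBasis X, ?_, ?_⟩
  · refine ((((p.countable.insert _).union (p.countable.image _)).union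
      (p.countable.image2 p.countable _)).union (p.countable.image2 countable_univ _)).union
      (countable_countableBasis X)
  · rintro a (((((h | h) | ⟨b, hb, rfl⟩) | ⟨b, hb, c, hc, rfl⟩) | ⟨b, hb, k, -, rfl⟩) | h)
    · rw [h]; exact MeasurableSet.univ
    · exact p.meas _ h
    · exact (p.meas _ hb).compl
    · exact (p.meas _ hb).inter (p.meas _ hc)
    · exact Vt_meas (p.meas _ hb) (bas_open G k)
    · exact (isOpen_of_mem_countableBasis h).measurableSet
  · intro a ha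
    have : a ∈ range f := hf ▸ mem_insert_of_mem _ ha
    obtain ⟨n, rfl⟩ := this
    exact h4 n
  · intro a ha
    exact Or.inl (Or.inl (Or.inl (Or.inl (Or.inr ha))))
  · intro a ha
    exact Or.inl (Or.inl (Or.inl (Or.inr ⟨a, ha, rfl⟩)))
  · intro a ha b hb
    exact Or.inl (Or.inl (Or.inr ⟨a, ha, b, hb, rfl⟩))
  · intro a ha k
    exact Or.inl (Or.inr ⟨a, ha, k, trivial, rfl⟩)
  · exact Or.inl (Or.inl (Or.inl (Or.inl (Or.inl rfl))))
  · intro a ha
    exact Or.inr ha
  · exact (isBasis_countableBasis X).eq_generateFrom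

theorem exists_good [StandardBorelSpace X] (C : Set (Set X)) (hC : C.Countable)
    (hm : ∀ a ∈ C, MeasurableSet a) : ∃ A : Set (Set X), C ⊆ A ∧ Good G A := by
  obtain ⟨t0, ht0, hp0⟩ := StandardBorelSpace.polish (α := X)
  let p0 : St X := ⟨t0, C, hp0, ht0.measurable_eq.symm, hC, hm⟩
  choose N h1 h2 h3 h4 h5 h6 h7 B h8 h9 using exists_step G (X := X)
  let P : ℕ → St X := fun n => N^[n] p0
  have hP : ∀ n, P (n + 1) = N (P n) := fun n => Function.iterate_succ_apply' N n _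
  have hmono : Monotone fun n => (P n).s := by
    refine monotone_nat_of_le_succ fun n => ?_
    rw [hP]
    exact h3 _
  have htop : ∀ n, (P n).t ≤ (P 0).t := by
    intro n
    induction n with
    | zero => exact le_refl _
    | succ n ih =>
      rw [hP]
      exact (h1 _).trans ih
  refine ⟨⋃ n, (P n).s, ?_, ?_⟩
  · exact subset_iUnion (fun n => (P n).s) 0
  have hgen : generateFrom (⋃ n, (P n).s) = ⨅ n, (P n).t := by
    apply le_antisymm
    · refine le_iInf fun n => ?_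
      have h10 : (P (n + 1)).t ≤ (P n).t := by rw [hP]; exact h1 _
      refine le_trans ?_ h10
      have h11 : (P (n + 1)).t = generateFrom (B (P n)) := by rw [hP]; exact h9 _
      rw [h11]
      refine generateFrom_anti ?_
      have h12 : B (P n) ⊆ (P (n + 1)).s := by rw [hP]; exact h8 _
      exact h12.trans (subset_iUnion (fun n => (P n).s) (n + 1))
    · rw [le_generateFrom_iff_subset_isOpen]
      intro a ha
      obtain ⟨n, hn⟩ := mem_iUnion.1 ha
      have h10 : IsOpen[(P (n + 1)).t] a := by rw [hP]; exact h2 _ _ hn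
      exact (iInf_le (fun n => (P n).t) (n + 1)) _ h10
  have hpol : @PolishSpace X (⨅ n, (P n).t) :=
    PolishSpace.iInf ⟨0, htop⟩ fun n => (P n).polish
  have hlift : ∀ a ∈ ⋃ n, (P n).s, ∃ n, a ∈ (P n).s := fun a ha => mem_iUnion.1 ha
  have hin : ∀ n, (P (n + 1)).s ⊆ ⋃ n, (P n).s := fun n =>
    subset_iUnion (fun n => (P n).s) (n + 1)
  refine ⟨countable_iUnion fun n => (P n).countable, ?_, ?_, ?_, ?_, ?_, ?_, ?_⟩
  · intro a ha
    obtain ⟨n, hn⟩ := hlift a ha
    exact (P n).meas _ hn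
  · exact hin 0 (by rw [hP]; exact h7 _)
  · intro a ha
    obtain ⟨n, hn⟩ := hlift a ha
    exact hin n (by rw [hP]; exact h4 _ _ hn)
  · intro a ha b hb
    obtain ⟨n, hn⟩ := hlift a ha
    obtain ⟨k, hk⟩ := hlift b hb
    have hn' := hmono (le_max_left n k) hn
    have hk' := hmono (le_max_right n k) hk
    exact hin (max n k) (by rw [hP]; exact h5 _ _ hn' _ hk')
  · intro a ha k
    obtain ⟨n, hn⟩ := hlift a ha
    exact hin n (by rw [hP]; exact h6 _ _ hn k)
  · rw [hgen]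
    exact hpol
  · rw [hgen]
    have := borel_eq_borel_of_le hpol (P 0).polish (iInf_le (fun n => (P n).t) 0)
    rw [this, (P 0).borel]

variable {G}

theorem Good.basis {A : Set (Set X)} (h : Good G A) :
    @IsTopologicalBasis X (generateFrom A) A := by
  letI := generateFrom A
  refine ⟨?_, ?_, rfl⟩
  · intro s hs t ht x hx
    exact ⟨s ∩ t, h.inter s hs t ht, hx, Subset.refl _⟩
  · exact eq_univ_of_forall fun x => ⟨univ, h.unv, trivial⟩

theorem Good.sep_mem {A : Set (Set X)} (h : Good G A) {x y : X} (hxy : x ≠ y) :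
    ∃ s ∈ A, x ∈ s ∧ y ∉ s := by
  letI := generateFrom A
  haveI := h.polish
  obtain ⟨u, v, hu, -, hxu, hyv, hd⟩ := t2_separation hxy
  obtain ⟨s, hs, hxs, hsu⟩ := h.basis.exists_subset_of_mem_open hxu hu
  exact ⟨s, hs, hxs, fun hy => disjoint_left.1 hd (hsu hy) hyv⟩

theorem Good.vt_univ {A : Set (Set X)} (h : Good G A) {s : Set X} (hs : s ∈ A) :
    Vt s (univ : Set G) ∈ A := by
  have := h.vt s hs 0
  rwa [bas_zero] at this

/-- Vaught transforms separate points -/
theorem Good.sep_vt {A : Set (Set X)} (h : Good G A) {x y : X} (hxy : x ≠ y) :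
    ∃ s ∈ A, ∃ k, x ∈ Vt s (bas G k) ∧ y ∉ Vt s (bas G k) := by
  have h1 : ∃ s ∈ A, ¬ IsMeagre {g : G | g • x ∈ s ∧ g • y ∉ s} := by
    by_contra hc
    push Not at hc
    have h2 : IsMeagre (⋃ s ∈ A, {g : G | g • x ∈ s ∧ g • y ∉ s}) :=
      isMeagre_biUnion h.countable hc
    refine not_meagre_open (U := G) isOpen_univ ⟨1, trivial⟩ (h2.mono ?_)
    intro g _
    have hne : g • x ≠ g • y := fun e => hxy (MulAction.injective g e)
    obtain ⟨s, hs, h3, h4⟩ := h.sep_mem hne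
    exact mem_biUnion hs ⟨h3, h4⟩
  obtain ⟨s, hs, hm⟩ := h1
  have hD : MeasurableSet {g : G | g • x ∈ s ∧ g • y ∉ s} :=
    (meas_smul (h.meas s hs) x).inter (meas_smul (h.meas s hs) y).compl
  obtain ⟨W, hW, ⟨g, hg⟩, -, hWm⟩ := exists_open_of_not_meagre hD isOpen_univ
    (by simpa using hm)
  obtain ⟨k, hk, hkW⟩ := bas_basis hW hg
  refine ⟨s, hs, k, ?_, ?_⟩
  · apply Vt_of_local (bas_open G k) ⟨g, hk⟩
    intro hc
    apply hc
    refine hWm.mono ?_
    rintro u ⟨h1, h2⟩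
    exact ⟨hkW h1, fun h3 => h2 h3.1⟩
  · intro hc
    apply hc
    refine hWm.mono ?_
    rintro u ⟨h1, h2⟩
    exact ⟨hkW h1, fun h3 => h3.2 h2⟩

variable (G) in
/-- the points which look generic in their orbits -/
def Gp (A : Set (Set X)) : Set X :=
  {a | ∀ s ∈ A, ∀ k, (1 : G) ∈ bas G k → a ∈ s → a ∈ Vt s (bas G k)}

theorem Good.gp_closed {A : Set (Set X)} (h : Good G A) :
    @IsClosed X (generateFrom A) (Gp G A) := by
  letI := generateFrom A
  rw [← isOpen_compl_iff, isOpen_iff_forall_mem_open]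
  intro x hx
  have hx' : ∃ s ∈ A, ∃ k, (1 : G) ∈ bas G k ∧ x ∈ s ∧ x ∉ Vt s (bas G k) := by
    by_contra hc
    push Not at hc
    exact hx hc
  obtain ⟨s, hs, k, h1, h2, h3⟩ := hx'
  refine ⟨s ∩ (Vt s (bas G k))ᶜ, ?_, ?_, h2, h3⟩
  · intro y hy hyG
    exact hy.2 (hyG s hs k h1 hy.1)
  · exact h.basis.isOpen (h.inter _ hs _ (h.compl _ (h.vt s hs k)))

theorem loc_meagre {U : Type*} [TopologicalSpace U] [SecondCountableTopology U] (M : Set U)
    (h : ∀ g ∈ M, ∃ O, IsOpen O ∧ g ∈ O ∧ IsMeagre (M ∩ O)) : IsMeagre M := by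
  have h1 : IsMeagre (⋃ O ∈ {O | O ∈ countableBasis U ∧ IsMeagre (M ∩ O)}, M ∩ O) := by
    refine isMeagre_biUnion ((countable_countableBasis U).mono (sep_subset _ _)) ?_
    intro O hO
    exact hO.2
  refine h1.mono ?_
  intro g hg
  obtain ⟨O, hO, hgO, hm⟩ := h g hg
  obtain ⟨W, hW, hgW, hWO⟩ := (isBasis_countableBasis U).exists_subset_of_mem_open hgO hO
  refine mem_biUnion (⟨hW, hm.mono (inter_subset_inter_right _ hWO)⟩ :
    W ∈ {O | O ∈ countableBasis U ∧ IsMeagre (M ∩ O)}) ⟨hg, hgW⟩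

theorem Good.gp_ae {A : Set (Set X)} (h : Good G A) (y : X) :
    IsMeagre {g : G | g • y ∉ Gp G A} := by
  have h1 : ∀ s ∈ A, ∀ k, (1 : G) ∈ bas G k →
      IsMeagre {g : G | g • y ∈ s ∧ g • y ∉ Vt s (bas G k)} := by
    intro s hs k hk
    apply loc_meagre
    rintro g ⟨h2, h3⟩
    rw [Vt_smul] at h3
    refine ⟨(fun u => u * g⁻¹) ⁻¹' (bas G k), (bas_open G k).preimage (by fun_prop), ?_, ?_⟩
    · simpa using hk
    · have h4 : IsMeagre {u : G | u ∈ (fun u => u * g⁻¹) ⁻¹' (bas G k) ∧ u • y ∈ s} :=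
        not_not.1 h3
      refine h4.mono ?_
      rintro u ⟨h5, h6⟩
      exact ⟨h6, h5.1⟩
  have h2 : IsMeagre (⋃ s ∈ A, ⋃ k, {g : G | (1 : G) ∈ bas G k ∧ g • y ∈ s ∧
      g • y ∉ Vt s (bas G k)}) := by
    refine isMeagre_biUnion h.countable fun s hs => isMeagre_iUnion fun k => ?_
    by_cases hk : (1 : G) ∈ bas G k
    · refine (h1 s hs k hk).mono ?_
      rintro g ⟨-, h5, h6⟩
      exact ⟨h5, h6⟩
    · refine IsMeagre.empty.mono ?_
      rintro g ⟨h4, -⟩
      exact hk h4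
  refine h2.mono ?_
  intro g hg
  have hg' : ∃ s ∈ A, ∃ k, (1 : G) ∈ bas G k ∧ g • y ∈ s ∧ g • y ∉ Vt s (bas G k) := by
    by_contra hc
    push Not at hc
    exact hg hc
  obtain ⟨s, hs, k, h3, h4, h5⟩ := hg'
  exact mem_biUnion hs (mem_iUnion.2 ⟨k, h3, h4, h5⟩)

theorem Good.vt_iff {A : Set (Set X)} (h : Good G A) {s : Set X} (hs : s ∈ A) {U : Set G}
    (hU : IsOpen U) {y : X} : y ∈ Vt s U ↔ ∃ g ∈ U, g • y ∈ s ∧ g • y ∈ Gp G A := by
  constructor
  · intro hy
    by_contra hc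
    push Not at hc
    apply hy
    refine (h.gp_ae y).mono ?_
    rintro g ⟨h1, h2⟩
    exact hc g h1 h2
  · rintro ⟨g, hg, h1, h2⟩
    obtain ⟨k, hk, hkU⟩ := bas_basis (O := (fun u => u * g) ⁻¹' U) (hU.preimage (by fun_prop))
      (g := 1) (by simpa using hg)
    exact Vt_unshift (h2 s hs k hk h1) fun u hu => hkU hu

/-- the set of Vaught transforms is directed at each point -/
theorem Good.directed {A : Set (Set X)} (h : Good G A) {s t : Set X} (hs : s ∈ A) (ht : t ∈ A)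
    {U W : Set G} (hU : IsOpen U) (hW : IsOpen W) {x : X} (hx1 : x ∈ Vt s U)
    (hx2 : x ∈ Vt t W) : ∃ r ∈ A, ∃ O : Set G, IsOpen O ∧ x ∈ Vt r O ∧ Vt r O ⊆ Vt s U ∧
      Vt r O ⊆ Vt t W := by
  obtain ⟨i, O1, hO1, h11, hx1', hm1⟩ := Vt_shrink hU hx1
  obtain ⟨j, O2, hO2, h12, hx2', hm2⟩ := Vt_shrink hW hx2
  refine ⟨Vt s (bas G i) ∩ Vt t (bas G j), h.inter _ (h.vt s hs i) _ (h.vt t ht j),
    O1 ∩ O2, hO1.inter hO2, ?_, ?_, ?_⟩
  · refine Vt_of_open (S := (O1 ∩ O2) ∩ ({v : G | v • x ∈ Vt s (bas G i)} ∩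
      {v : G | v • x ∈ Vt t (bas G j)})) ?_ ⟨1, ⟨h11, h12⟩, ?_, ?_⟩ inter_subset_left ?_
    · exact (hO1.inter hO2).inter ((Vt_open (bas_open G i) x).inter (Vt_open (bas_open G j) x))
    · simpa using hx1'
    · simpa using hx2'
    · intro g hg
      exact hg.2
  · intro y hy
    obtain ⟨g, hg, hgy⟩ := exists_of_Vt hy
    exact Vt_unshift hgy.1 fun u hu => hm1 u hu g hg.1
  · intro y hy
    obtain ⟨g, hg, hgy⟩ := exists_of_Vt hy
    exact Vt_unshift hgy.2 fun u hu => hm2 u hu g hg.2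

end Pool.Agent.H657.CL
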