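import Pool.Agent.H657.CL.Gen
import Pool.Graph.R_seed8.H579R3.SB

set_option autoImplicit false
set_option linter.unusedSectionVars false
set_option linter.deprecated false
set_option linter.style.haveILetI false

/-!
In a thin action every Borel set of pairs is captured by countably many Borel sets.
-/

namespace Pool.Agent.H657.CL

open Set Filter Topology MeasureTheory TopologicalSpace

variable {G : Type*} [TopologicalSpace G] [Group G] [IsTopologicalGroup G] [PolishSpace G]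
  [MeasurableSpace G] [BorelSpace G]
variable {X : Type*} [m : MeasurableSpace X] [MulAction G X] [MeasurableSMul₂ G X]

variable (G) in
/-- the Vaught transforms of the sections of `Q` are unions of Vaught transforms of members
of `A` -/
def Captures (A : Set (Set X)) (Q : Set (X × X)) : Prop :=
  ∀ (x y : X) (U : Set G), IsOpen U → y ∈ Vt {t | (x, t) ∈ Q} U →
    ∃ a ∈ A, ∃ W : Set G, IsOpen W ∧ y ∈ Vt a W ∧ Vt a W ⊆ Vt {t | (x, t) ∈ Q} U

variable (G) in
/-- countably many Borel sets suffice to capture `Q` -/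
def Cap (Q : Set (X × X)) : Prop :=
  ∃ C : Set (Set X), C.Countable ∧ (∀ a ∈ C, MeasurableSet a) ∧
    ∀ A, Good G A → C ⊆ A → Captures G A Q

theorem cap_rect (S T : Set X) (hT : MeasurableSet T) : Cap G (S ×ˢ T) := by
  refine ⟨{T}, countable_singleton T, ?_, ?_⟩
  · rintro a rfl
    exact hT
  · intro A _ hCA x y U hU hy
    obtain ⟨g, hg, hgy⟩ := exists_of_Vt hy
    have hxS : x ∈ S := hgy.1
    have he : {t | (x, t) ∈ S ×ˢ T} = T := by
      ext t
      exact ⟨fun h => h.2, fun h => ⟨hxS, h⟩⟩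
    rw [he] at hy ⊢
    exact ⟨T, hCA rfl, U, hU, hy, Subset.refl _⟩

theorem cap_iUnion (Q : ℕ → Set (X × X)) (h : ∀ n, Cap G (Q n)) : Cap G (⋃ n, Q n) := by
  choose C hC1 hC2 hC3 using h
  refine ⟨⋃ n, C n, countable_iUnion hC1, ?_, ?_⟩
  · intro a ha
    obtain ⟨n, hn⟩ := mem_iUnion.1 ha
    exact hC2 n a hn
  · intro A hA hCA x y U hU hy
    have he : {t | (x, t) ∈ ⋃ n, Q n} = ⋃ n, {t | (x, t) ∈ Q n} := by
      ext t
      simp
    rw [he] at hy ⊢
    obtain ⟨n, hn⟩ := (Vt_iUnion _ _).1 hy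
    obtain ⟨a, ha, W, hW, h1, h2⟩ := hC3 n A hA ((subset_iUnion C n).trans hCA) x y U hU hn
    exact ⟨a, ha, W, hW, h1, fun t ht => (Vt_iUnion _ _).2 ⟨n, h2 ht⟩⟩

section types

variable (G) (e : ℕ → Set X)

/-- the basic sets met by a piece of the orbit -/
def Ty (k : ℕ) (y : X) : Set (ℕ × ℕ) :=
  {p | y ∈ Vt (Vt (e p.1) (bas G p.2)) (bas G k)}

theorem mem_Ty {k : ℕ} {y : X} {p : ℕ × ℕ} :
    p ∈ Ty G e k y ↔ ∃ u ∈ bas G k, u • y ∈ Vt (e p.1) (bas G p.2) := by
  constructor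
  · intro h
    exact exists_of_Vt h
  · rintro ⟨u, hu, hu2⟩
    refine Vt_of_open (S := bas G k ∩ {u | u • y ∈ Vt (e p.1) (bas G p.2)}) ?_ ⟨u, hu, hu2⟩
      inter_subset_left fun g hg => hg.2
    exact (bas_open G k).inter (Vt_open (bas_open G _) y)

/-- comparison of pieces of orbits -/
def Le (x : X) (l : ℕ) (y : X) (k : ℕ) : Prop :=
  Ty G e l x ⊆ Ty G e k y ∧ ∀ i, (bas G i).Nonempty → bas G i ⊆ bas G l →
    ∃ p, (bas G p).Nonempty ∧ bas G p ⊆ bas G k ∧ Ty G e p y ⊆ Ty G e i x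

/-- one side of the equivalence -/
def Hf (x y : X) : Prop :=
  ∀ k, (bas G k).Nonempty → ∃ l, (bas G l).Nonempty ∧ Le G e x l y k

theorem Hf_refl (x : X) : Hf G e x x := by
  intro k hk
  exact ⟨k, hk, Subset.refl _, fun i hi hik => ⟨i, hi, hik, Subset.refl _⟩⟩

theorem Hf_trans {x y z : X} (h1 : Hf G e x y) (h2 : Hf G e y z) : Hf G e x z := by
  intro k hk
  obtain ⟨l, hl, h3, h4⟩ := h2 k hk
  obtain ⟨j, hj, h5, h6⟩ := h1 l hl
  refine ⟨j, hj, h5.trans h3, ?_⟩
  intro i hi hij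
  obtain ⟨p, hp, hpl, h7⟩ := h6 i hi hij
  obtain ⟨q, hq, hqk, h8⟩ := h4 p hp hpl
  exact ⟨q, hq, hqk, h8.trans h7⟩

theorem Hf_smul (x : X) (g : G) : Hf G e (g • x) x := by
  intro k hk
  have ho : IsOpen {w : G | w * g ∈ bas G k} := (bas_open G k).preimage (by fun_prop)
  obtain ⟨w, hw⟩ := hk
  obtain ⟨l, hl, hlk⟩ := bas_basis ho (g := w * g⁻¹) (by simpa using hw)
  refine ⟨l, ⟨_, hl⟩, ?_, ?_⟩
  · intro p hp
    rw [mem_Ty] at hp ⊢
    obtain ⟨u, hu, hu2⟩ := hp
    exact ⟨u * g, hlk hu, by rw [mul_smul]; exact hu2⟩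
  · rintro i ⟨v, hv⟩ hil
    have ho2 : IsOpen {w : G | w * g⁻¹ ∈ bas G i} := (bas_open G i).preimage (by fun_prop)
    obtain ⟨p, hp, hpi⟩ := bas_basis ho2 (g := v * g) (by simpa using hv)
    refine ⟨p, ⟨_, hp⟩, ?_, ?_⟩
    · intro w hw
      have := hlk (hil (hpi hw))
      simpa using this
    · intro q hq
      rw [mem_Ty] at hq ⊢
      obtain ⟨u, hu, hu2⟩ := hq
      exact ⟨u * g⁻¹, hpi hu, by simpa [smul_smul] using hu2⟩

theorem Hf_meas (he : ∀ n, MeasurableSet (e n)) :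
    MeasurableSet {q : X × X | Hf G e q.1 q.2 ∧ Hf G e q.2 q.1} := by
  have h1 : ∀ p k, Measurable fun y : X => p ∈ Ty G e k y := by
    intro p k
    exact (Vt_meas (Vt_meas (he _) (bas_open G _)) (bas_open G k)).mem
  have h2 : ∀ l k, Measurable fun q : X × X => Ty G e l q.1 ⊆ Ty G e k q.2 := by
    intro l k
    refine Measurable.forall fun p => Measurable.imp ?_ ?_
    · exact (h1 p l).comp measurable_fst
    · exact (h1 p k).comp measurable_snd
  have h2' : ∀ l k, Measurable fun q : X × X => Ty G e l q.2 ⊆ Ty G e k q.1 := by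
    intro l k
    refine Measurable.forall fun p => Measurable.imp ?_ ?_
    · exact (h1 p l).comp measurable_snd
    · exact (h1 p k).comp measurable_fst
  have h3 : Measurable fun q : X × X => Hf G e q.1 q.2 := by
    unfold Hf Le
    refine Measurable.forall fun k => Measurable.imp measurable_const ?_
    refine Measurable.exists fun l => Measurable.and measurable_const ?_
    refine Measurable.and (h2 l k) ?_
    refine Measurable.forall fun i => Measurable.imp measurable_const ?_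
    refine Measurable.imp measurable_const ?_
    refine Measurable.exists fun p => Measurable.and measurable_const ?_
    exact Measurable.and measurable_const (h2' p i)
  have h4 : Measurable fun q : X × X => Hf G e q.2 q.1 := by
    unfold Hf Le
    refine Measurable.forall fun k => Measurable.imp measurable_const ?_
    refine Measurable.exists fun l => Measurable.and measurable_const ?_
    refine Measurable.and (h2' l k) ?_
    refine Measurable.forall fun i => Measurable.imp measurable_const ?_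
    refine Measurable.imp measurable_const ?_
    refine Measurable.exists fun p => Measurable.and measurable_const ?_
    exact Measurable.and measurable_const (h2 p i)
  exact measurableSet_setOf.2 (h3.and h4)

end types

theorem cap_compl [StandardBorelSpace X] (hthin : Thin G X) {Q : Set (X × X)}
    (hQ : MeasurableSet Q) (h : Cap G Q) : Cap G Qᶜ := by
  obtain ⟨C, hC1, hC2, hC3⟩ := h
  obtain ⟨A0, hCA0, hA0⟩ := exists_good G C hC1 hC2
  have hcap := hC3 A0 hA0 hCA0
  obtain ⟨e, he⟩ := hA0.countable.exists_eq_range ⟨_, hA0.unv⟩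
  have hem : ∀ n, MeasurableSet (e n) := fun n => hA0.meas _ (he ▸ mem_range_self n)
  obtain ⟨S, hSc, hS⟩ : ∃ S : Set X, S.Countable ∧ ∀ x, ∃ s ∈ S, Hf G e s x := by
    obtain ⟨t, ht, hp⟩ := StandardBorelSpace.polish (α := X)
    rcases Pool.Agent.H579R3.SV.silver (X := X) (E := fun x y => Hf G e x y ∧ Hf G e y x)
      ⟨fun x => ⟨Hf_refl G e x, Hf_refl G e x⟩, fun h => ⟨h.2, h.1⟩,
        fun h h' => ⟨Hf_trans G e h.1 h'.1, Hf_trans G e h'.2 h.2⟩⟩ (Hf_meas G e hem)
        (A := univ) MeasurableSet.univ.analyticSet with h1 | h1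
    · obtain ⟨S, -, h2, h3⟩ := h1
      refine ⟨S, h2, fun x => ?_⟩
      obtain ⟨s, hs, h4⟩ := h3 x trivial
      exact ⟨s, hs, h4.2⟩
    · obtain ⟨f, hf, -, hf2⟩ := h1
      exact (hthin ⟨f, hf.measurable, fun b b' hbb hg => hf2 b b' hbb (by
        obtain ⟨g, hg⟩ := hg
        rw [← hg]
        refine ⟨?_, Hf_smul G e _ g⟩
        have := Hf_smul G e (g • f b) g⁻¹
        simpa using this)⟩).elim
  let K : X → ℕ → Set X := fun s l =>
    {t | ∀ p : ℕ × ℕ, t ∈ Vt (e p.1) (bas G p.2) → p ∈ Ty G e l s}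
  refine ⟨image2 K S univ, hSc.image2 countable_univ _, ?_, ?_⟩
  · rintro _ ⟨s, -, l, -, rfl⟩
    refine measurableSet_setOf.2 (Measurable.forall fun p => Measurable.imp ?_ measurable_const)
    exact (Vt_meas (hem _) (bas_open G _)).mem
  · intro A hA hKA x y U hU hy
    have hQx : MeasurableSet {t | (x, t) ∈ Q} := measurable_prodMk_left hQ
    have hec : {t | (x, t) ∈ Qᶜ} = {t | (x, t) ∈ Q}ᶜ := rfl
    rw [hec] at hy ⊢
    have hcx : ∀ (y : X) (U : Set G), IsOpen U → y ∈ Vt {t | (x, t) ∈ Q} U →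
      ∃ a ∈ A0, ∃ W : Set G, IsOpen W ∧ y ∈ Vt a W ∧ Vt a W ⊆ Vt {t | (x, t) ∈ Q} U := hcap x
    generalize {t | (x, t) ∈ Q} = Qx at hQx hy hcx ⊢
    obtain ⟨k0, ⟨w, hw⟩, hk0U, hyk0⟩ := Vt_local hQx.compl hU hy
    rw [compl_compl] at hyk0
    obtain ⟨k, O, hwk, hO, h1O, hkO⟩ : ∃ k, ∃ O : Set G, w ∈ bas G k ∧ IsOpen O ∧ 1 ∈ O ∧
        ∀ a ∈ bas G k, ∀ b ∈ O, a * b ∈ bas G k0 := by
      have hc : Continuous fun p : G × G => p.1 * p.2 := by fun_prop
      have ho := (bas_open G k0).preimage hc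
      obtain ⟨S1, T1, hS1, hT1, h2, h3, h4⟩ := isOpen_prod_iff.1 ho w 1 (by simpa using hw)
      obtain ⟨i, hi, hiS⟩ := bas_basis hS1 h2
      exact ⟨i, T1, hi, hT1, h3, fun a ha b hb => h4 (mk_mem_prod (hiS ha) hb)⟩
    obtain ⟨l, h1l, hlO⟩ := bas_basis hO h1O
    obtain ⟨s, hs, hsy⟩ := hS y
    obtain ⟨l', hl', hT1, hT2⟩ := hsy l ⟨1, h1l⟩
    obtain ⟨p, hp, hpl, hTp⟩ := hT2 l' hl' (Subset.refl _)
    have hKF : ∀ t ∈ K s l', t ∉ Vt Qx (bas G k) := by
      intro t ht htQ
      obtain ⟨a, ha, W', hW', h1, h2⟩ := hcx t _ (bas_open G k) htQ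
      obtain ⟨j, hj, htj⟩ := Vt_basic' hW' h1
      have ha' : a ∈ range e := he ▸ ha
      obtain ⟨i, rfl⟩ := ha'
      have h3 : (i, j) ∈ Ty G e l y := hT1 (ht (i, j) htj)
      rw [mem_Ty] at h3
      obtain ⟨u, hu, hu2⟩ := h3
      have h4 : u • y ∈ Vt Qx (bas G k) := h2 (Vt_mono (Subset.refl _) hj hu2)
      exact hyk0 (Vt_unshift h4 fun v hv => hkO v hv u (hlO hu))
    refine ⟨K s l', hKA ⟨s, hs, l', trivial, rfl⟩, bas G p, bas_open G p, ?_, ?_⟩
    · refine Vt_of_open (bas_open G p) hp (Subset.refl _) ?_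
      intro g hg q hq
      exact hTp ((mem_Ty G e).2 ⟨g, hg, hq⟩)
    · intro t ht
      obtain ⟨o, ho, hot⟩ := exists_of_Vt ht
      have h5 := hKF _ hot
      rw [Vt_smul] at h5
      have ho2 : IsOpen ((fun u => u * o⁻¹) ⁻¹' (bas G k)) := (bas_open G k).preimage (by fun_prop)
      have h6 : t ∈ Vt Qxᶜ ((fun u => u * o⁻¹) ⁻¹' (bas G k)) := by
        refine Vt_of_local ho2 ⟨w * o, by simpa using hwk⟩ ?_
        rw [compl_compl]
        exact h5
      refine Vt_mono (Subset.refl _) ?_ h6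
      intro v hv
      apply hk0U
      have := hkO _ hv o (hlO (hpl ho))
      simpa using this

theorem cap_all [StandardBorelSpace X] (hthin : Thin G X) {Q : Set (X × X)}
    (hQ : MeasurableSet Q) : Cap G Q := by
  have h : MeasurableSet Q ∧ Cap G Q := by
    refine MeasurableSpace.generateFrom_induction
      (image2 (fun s t => s ×ˢ t) {s : Set X | MeasurableSet s} {t : Set X | MeasurableSet t})
      (fun Q _ => MeasurableSet Q ∧ Cap G Q) ?_ ?_ ?_ ?_ Q ?_
    · rintro _ ⟨s, hs, t, ht, rfl⟩ -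
      exact ⟨MeasurableSet.prod hs ht, cap_rect s t ht⟩
    · refine ⟨MeasurableSet.empty, ?_⟩
      have := cap_rect (G := G) (∅ : Set X) ∅ MeasurableSet.empty
      simpa using this
    · rintro Q - ⟨h1, h2⟩
      exact ⟨h1.compl, cap_compl hthin h1 h2⟩
    · rintro Q - h
      exact ⟨MeasurableSet.iUnion fun n => (h n).1, cap_iUnion Q fun n => (h n).2⟩
    · rw [generateFrom_prod]
      exact hQ
  exact h.2

end Pool.Agent.H657.CL
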