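import Pool.Agent.H657.CL.Alg
import Pool.Graph.R_seed8.H566W.Ana

set_option autoImplicit false
set_option linter.unusedSectionVars false
set_option linter.deprecated false
set_option linter.style.haveILetI false

/-!
Generic points, and embeddings of their orbits into every orbit of the same type.
-/

namespace Pool.Agent.H657.CL

open Set Filter Topology MeasureTheory TopologicalSpace

variable (G : Type*) [TopologicalSpace G] [Group G] [IsTopologicalGroup G] [PolishSpace G]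
  [MeasurableSpace G] [BorelSpace G]
variable {X : Type*} [m : MeasurableSpace X] [MulAction G X] [MeasurableSMul₂ G X]

/-- the class of a point for the invariant members of the algebra -/
def Cl (A : Set (Set X)) (x : X) : Set X :=
  {y | ∀ s ∈ A, y ∈ Vt s (univ : Set G) ↔ x ∈ Vt s (univ : Set G)}

/-- there is no perfect set of inequivalent points -/
def Thin (X : Type*) [MeasurableSpace X] [MulAction G X] : Prop :=
  ¬ ∃ f : (ℕ → Bool) → X, Measurable f ∧ ∀ x y : ℕ → Bool, x ≠ y → ¬ ∃ g : G, g • f x = f y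

/-- points whose orbit is nonmeagre in the set of good points of its class -/
def Gen (A : Set (Set X)) (x : X) : Prop :=
  ∀ S : ℕ → Set X, (∀ g : G, g • x ∈ Gp G A → ∃ n, g • x ∈ S n) →
    ∃ n, ∃ a ∈ A, (a ∩ (Cl G A x ∩ Gp G A)).Nonempty ∧
      ∀ b ∈ A, b ⊆ a → (b ∩ (Cl G A x ∩ Gp G A)).Nonempty → (b ∩ S n).Nonempty

variable {G}

theorem Cl_smul {A : Set (Set X)} {x y : X} (hy : y ∈ Cl G A x) (g : G) :
    g • y ∈ Cl G A x := by
  intro s hs
  rw [← hy s hs, Vt_smul]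
  rfl

theorem Cl_eq {A : Set (Set X)} {x y : X} (hy : y ∈ Cl G A x) : Cl G A y = Cl G A x := by
  ext z
  constructor
  · intro hz s hs
    exact (hz s hs).trans (hy s hs)
  · intro hz s hs
    exact (hz s hs).trans (hy s hs).symm

theorem Good.cl_closed {A : Set (Set X)} (h : Good G A) (x : X) :
    @IsClosed X (generateFrom A) (Cl G A x) := by
  letI := generateFrom A
  rw [← isOpen_compl_iff, isOpen_iff_forall_mem_open]
  intro y hy
  have hy' : ∃ s ∈ A, ¬ (y ∈ Vt s (univ : Set G) ↔ x ∈ Vt s (univ : Set G)) := by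
    by_contra hc
    push Not at hc
    exact hy hc
  obtain ⟨s, hs, hne⟩ := hy'
  have h1 := h.vt_univ hs
  have h2 := h.compl _ h1
  by_cases hys : y ∈ Vt s (univ : Set G)
  · refine ⟨Vt s (univ : Set G), ?_, h.basis.isOpen h1, hys⟩
    intro z hz hzC
    exact hne ⟨fun _ => (hzC s hs).1 hz, fun _ => hys⟩
  · refine ⟨(Vt s (univ : Set G))ᶜ, ?_, h.basis.isOpen h2, hys⟩
    intro z hz hzC
    exact hne ⟨fun h => absurd h hys, fun h => absurd ((hzC s hs).2 h) hz⟩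

theorem Good.exists_gen [StandardBorelSpace X] {A : Set (Set X)} (h : Good G A)
    (hthin : Thin G X) (x0 : X) : ∃ x ∈ Cl G A x0, Gen G A x := by
  letI : TopologicalSpace X := generateFrom A
  haveI : PolishSpace X := h.polish
  haveI : BorelSpace X := ⟨h.borel.symm⟩
  let D : Set X := Cl G A x0 ∩ Gp G A
  have hDc : IsClosed D := (h.cl_closed x0).inter h.gp_closed
  haveI : PolishSpace D := hDc.polishSpace
  have hDn : Nonempty D := by
    have h1 : ∃ g : G, g • x0 ∈ Gp G A := by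
      by_contra hc
      push Not at hc
      refine not_meagre_open (U := G) isOpen_univ ⟨1, trivial⟩ ((h.gp_ae x0).mono ?_)
      intro g _
      exact hc g
    obtain ⟨g, hg⟩ := h1
    exact ⟨⟨g • x0, Cl_smul (fun s _ => Iff.rfl) g, hg⟩⟩
  let E : Set (D × D) := {p | ∃ g : G, g • (p.1 : X) = p.2}
  have hEa : AnalyticSet E := by
    have h1 : MeasurableSet {q : G × (D × D) | q.1 • (q.2.1 : X) = q.2.2} := by
      apply measurableSet_eq_fun
      · exact measurable_fst.smul (measurable_subtype_coe.comp (measurable_fst.comp measurable_snd))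
      · exact measurable_subtype_coe.comp (measurable_snd.comp measurable_snd)
    have h2 : E = Prod.snd '' {q : G × (D × D) | q.1 • (q.2.1 : X) = q.2.2} := by
      ext p
      constructor
      · rintro ⟨g, hg⟩
        exact ⟨(g, p), hg, rfl⟩
      · rintro ⟨⟨g, p'⟩, hg, rfl⟩
        exact ⟨g, hg⟩
    rw [h2]
    exact h1.analyticSet_image measurable_snd
  have hkey : ∃ x : D, ¬ IsMeagre {y : D | (x, y) ∈ E} := by
    by_contra hc
    push Not at hc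
    have hm : IsMeagre E := by
      rw [AnalyticSet] at hEa
      rcases hEa with h | ⟨f, hf, hfr⟩
      · rw [h]; exact IsMeagre.empty
      · rw [← hfr]
        apply Pool.Agent.H566W.meagre_of_sections hf
        intro x
        rw [hfr]
        exact hc x
    obtain ⟨S, hSo, hSd, hSc, hSM⟩ := mem_residual_iff.1 hm
    obtain ⟨W, hW⟩ := (hSc.insert univ).exists_eq_range ⟨univ, mem_insert _ _⟩
    have hWS : ∀ n, W n = univ ∨ W n ∈ S := by
      intro n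
      have : W n ∈ insert univ S := by rw [hW]; exact ⟨n, rfl⟩
      exact this
    obtain ⟨f, hf1, hf2⟩ := Pool.Agent.H565R2.FO2.mycielski' W (fun n => by
      rcases hWS n with h | h
      · rw [h]; exact isOpen_univ
      · exact hSo _ h) (fun n => by
      rcases hWS n with h | h
      · rw [h]; exact dense_univ
      · exact hSd _ h)
    refine hthin ⟨fun b => (f b : X), (continuous_subtype_val.comp hf1).measurable, ?_⟩
    intro b b' hbb hg
    refine hSM (a := (f b, f b')) (fun t ht => ?_) hg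
    have : t ∈ range W := by rw [← hW]; exact mem_insert_of_mem _ ht
    obtain ⟨n, rfl⟩ := this
    exact hf2 b b' hbb n
  obtain ⟨⟨x, hxC, hxG⟩, hx⟩ := hkey
  refine ⟨x, hxC, ?_⟩
  intro S hS
  rw [Cl_eq hxC]
  have h1 : ∃ n, ¬ IsMeagre {y : D | (y : X) ∈ S n} := by
    by_contra hc
    push Not at hc
    apply hx
    refine (isMeagre_iUnion hc).mono ?_
    rintro ⟨y, hyC, hyG⟩ ⟨g, hg⟩
    have hg' : g • x = y := hg
    subst hg'
    obtain ⟨n, hn⟩ := hS g hyG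
    exact mem_iUnion.2 ⟨n, hn⟩
  obtain ⟨n, hn⟩ := h1
  have h2 : ¬ IsNowhereDense {y : D | (y : X) ∈ S n} := fun hc => hn hc.isMeagre
  have h3 : (interior (closure {y : D | (y : X) ∈ S n})).Nonempty := by
    by_contra hc
    rw [not_nonempty_iff_eq_empty] at hc
    exact h2 hc
  obtain ⟨y, hy⟩ := h3
  have h4 : IsOpen (interior (closure {y : D | (y : X) ∈ S n})) := isOpen_interior
  rw [isOpen_induced_iff] at h4
  obtain ⟨O, hO, hOe⟩ := h4
  have hyO : (y : X) ∈ O := by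
    have : y ∈ Subtype.val ⁻¹' O := by rw [hOe]; exact hy
    exact this
  obtain ⟨a, ha, hya, haO⟩ := h.basis.exists_subset_of_mem_open hyO hO
  refine ⟨n, a, ha, ⟨y, hya, y.2⟩, ?_⟩
  rintro b hb hba ⟨z, hzb, hzD⟩
  have h5 : (⟨z, hzD⟩ : D) ∈ closure {y : D | (y : X) ∈ S n} := by
    apply interior_subset
    rw [← hOe]
    exact haO (hba hzb)
  have hbo : IsOpen (Subtype.val ⁻¹' b : Set D) :=
    (h.basis.isOpen hb).preimage continuous_subtype_val
  obtain ⟨w, hw1, hw2⟩ := mem_closure_iff.1 h5 _ hbo hzb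
  exact ⟨w, hw1, hw2⟩

theorem Good.gen_E {A : Set (Set X)} (h : Good G A) {x : X} (hx : Gen G A x) {V : Set G}
    (hV : IsOpen V) (h1 : 1 ∈ V) : ∃ a ∈ A, ∃ U : Set G, IsOpen U ∧ x ∈ Vt a U ∧
      ∀ y ∈ Vt a U, y ∈ Cl G A x → ∀ b ∈ A, ∀ W : Set G, IsOpen W → y ∈ Vt b W →
        ∃ v ∈ V, v • x ∈ Vt b W := by
  obtain ⟨V1, hV1, h11, hm⟩ : ∃ V1 : Set G, IsOpen V1 ∧ 1 ∈ V1 ∧
      ∀ a ∈ V1, ∀ b ∈ V1, ∀ c ∈ V1, a⁻¹ * b⁻¹ * c ∈ V := by
    have hc : Continuous fun p : G × G × G => p.1⁻¹ * p.2.1⁻¹ * p.2.2 := by fun_prop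
    have ho := hV.preimage hc
    obtain ⟨S1, T1, hS1, hT1, h2, h3, h4⟩ := isOpen_prod_iff.1 ho 1 (1, 1) (by simpa using h1)
    obtain ⟨S2, S3, hS2, hS3, h5, h6, h7⟩ := isOpen_prod_iff.1 hT1 1 1 h3
    refine ⟨S1 ∩ (S2 ∩ S3), hS1.inter (hS2.inter hS3), ⟨h2, h5, h6⟩, ?_⟩
    intro a ha b hb c hc
    exact h4 (mk_mem_prod ha.1 (h7 (mk_mem_prod hb.2.1 hc.2.2)))
  let d : ℕ → G := denseSeq G
  have hd : DenseRange d := denseRange_denseSeq G
  obtain ⟨n, a, ha, hne, hdense⟩ := hx (fun n => {y | ∃ v ∈ V1, y = (d n * v) • x} ∩ Gp G A) (by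
    intro g hg
    have ho : IsOpen {e : G | e⁻¹ * g ∈ V1} := hV1.preimage (by fun_prop)
    obtain ⟨_, he, n, rfl⟩ := hd.inter_open_nonempty _ ho ⟨g, by simpa using h11⟩
    exact ⟨n, ⟨(d n)⁻¹ * g, he, by simp⟩, hg⟩)
  obtain ⟨s, hsa, ⟨v1, hv1, rfl⟩, hsG⟩ := hdense a ha (Subset.refl _) hne
  have hUo : IsOpen {g : G | (d n)⁻¹ * g * v1⁻¹ ∈ V1} := hV1.preimage (by fun_prop)
  refine ⟨a, ha, {g : G | (d n)⁻¹ * g * v1⁻¹ ∈ V1}, hUo, ?_, ?_⟩
  · rw [h.vt_iff ha hUo]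
    exact ⟨d n * v1, by simpa using h11, hsa, hsG⟩
  · intro y hy hyC b hb W hW hyW
    obtain ⟨u, hu, hua, huG⟩ := (h.vt_iff ha hUo).1 hy
    have hW' : IsOpen {w : G | w * u ∈ W} := hW.preimage (by fun_prop)
    have h2 : u • y ∈ Vt b {w : G | w * u ∈ W} :=
      Vt_shift hyW (fun w hw => by simpa using hw)
    obtain ⟨k, hk, hk2⟩ := Vt_basic' hW' h2
    obtain ⟨s', hs', ⟨v', hv', rfl⟩, -⟩ := hdense (a ∩ Vt b (bas G k))
      (h.inter _ ha _ (h.vt b hb k)) inter_subset_left ⟨u • y, ⟨hua, hk2⟩, Cl_smul hyC u, huG⟩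
    have h3 : (d n * v') • x ∈ Vt b {w : G | w * u ∈ W} :=
      Vt_mono (Subset.refl _) hk hs'.2
    refine ⟨u⁻¹ * (d n * v'), ?_, ?_⟩
    · have := hm v1 hv1 _ hu v' hv'
      simpa [mul_assoc] using this
    · rw [mul_smul]
      exact Vt_shift h3 (fun w hw => by simpa using hw)

theorem Good.gen_K {A : Set (Set X)} (h : Good G A) {x : X} (hx : Gen G A x) {V : Set G}
    (hV : IsOpen V) (h1 : 1 ∈ V) : ∃ a ∈ A, ∃ U : Set G, IsOpen U ∧ x ∈ Vt a U ∧
      ∀ z ∈ Vt a U, z ∈ Cl G A x → ∀ b ∈ A, ∀ W : Set G, IsOpen W → x ∈ Vt b W →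
        ∃ v ∈ V, v • z ∈ Vt b W := by
  obtain ⟨i, O1, hi, hO1, h11, hm⟩ : ∃ i, ∃ O1 : Set G, (1 : G) ∈ bas G i ∧ IsOpen O1 ∧ 1 ∈ O1 ∧
      ∀ a ∈ bas G i, ∀ b ∈ O1, a * b ∈ V := by
    have hc : Continuous fun p : G × G => p.1 * p.2 := by fun_prop
    have ho := hV.preimage hc
    obtain ⟨S1, T1, hS1, hT1, h2, h3, h4⟩ := isOpen_prod_iff.1 ho 1 1 (by simpa using h1)
    obtain ⟨i, hi, hiS⟩ := bas_basis hS1 h2
    refine ⟨i, T1, hi, hT1, h3, ?_⟩
    intro a ha b hb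
    exact h4 (mk_mem_prod (hiS ha) hb)
  obtain ⟨V0, O, hV0, hO, h01, hO1', hOO, hm0⟩ : ∃ V0 O : Set G, IsOpen V0 ∧ IsOpen O ∧
      1 ∈ V0 ∧ 1 ∈ O ∧ O ⊆ O1 ∧ ∀ v ∈ V0, ∀ o ∈ O, v⁻¹ * o⁻¹ ∈ bas G i := by
    have hc : Continuous fun p : G × G => p.1⁻¹ * p.2⁻¹ := by fun_prop
    have ho := (bas_open G i).preimage hc
    obtain ⟨S1, T1, hS1, hT1, h2, h3, h4⟩ := isOpen_prod_iff.1 ho 1 1 (by simpa using hi)
    refine ⟨S1, T1 ∩ O1, hS1, hT1.inter hO1, h2, ⟨h3, h11⟩, inter_subset_right, ?_⟩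
    intro v hv o ho
    exact h4 (mk_mem_prod hv ho.1)
  obtain ⟨a, ha, U, hU, hxU, hkey⟩ := h.gen_E hx hV0 h01
  refine ⟨a, ha, U, hU, hxU, ?_⟩
  intro z hz hzC b hb W hW hxW
  by_contra hc
  push Not at hc
  obtain ⟨k, hk, hxk⟩ := Vt_basic' hW hxW
  have hF : (Vt (Vt b (bas G k)) (bas G i))ᶜ ∈ A := h.compl _ (h.vt _ (h.vt b hb k) i)
  have hzF : z ∈ Vt ((Vt (Vt b (bas G k)) (bas G i))ᶜ) O := by
    refine Vt_of_open hO ⟨1, hO1'⟩ (Subset.refl _) ?_
    intro o ho hoz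
    obtain ⟨u, hu, huz⟩ := exists_of_Vt hoz
    refine hc (u * o) (hm u hu o (hOO ho)) ?_
    rw [mul_smul]
    exact Vt_mono (Subset.refl _) hk huz
  obtain ⟨v0, hv0, hv0x⟩ := hkey z hz hzC _ hF O hO hzF
  obtain ⟨o, ho, hox⟩ := exists_of_Vt hv0x
  apply hox
  refine Vt_of_open (S := bas G i ∩ {u : G | u • (o • v0 • x) ∈ Vt b (bas G k)}) ?_
    ⟨v0⁻¹ * o⁻¹, hm0 v0 hv0 o ho, ?_⟩ inter_subset_left ?_
  · exact (bas_open G i).inter (Vt_open (bas_open G k) _)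
  · simpa [mul_smul] using hxk
  · intro g hg
    exact hg.2

/-- basic neighbourhoods of a point -/
structure Nb (G : Type*) [TopologicalSpace G] [Group G] {X : Type*} [MulAction G X]
    (A : Set (Set X)) (x : X) where
  s : Set X
  U : Set G
  mem : s ∈ A
  op : IsOpen U
  hx : x ∈ Vt s U

/-- the neighbourhood as a set -/
def Nb.v {A : Set (Set X)} {x : X} (p : Nb G A x) : Set X := Vt p.s p.U

theorem Good.nb_inter {A : Set (Set X)} (h : Good G A) {x : X} (p q : Nb G A x) :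
    ∃ r : Nb G A x, r.v ⊆ p.v ∧ r.v ⊆ q.v := by
  obtain ⟨r, hr, O, hO, h1, h2, h3⟩ := h.directed p.mem q.mem p.op q.op p.hx q.hx
  exact ⟨⟨r, O, hr, hO, h1⟩, h2, h3⟩

theorem Good.nb_chain {A : Set (Set X)} (h : Good G A) {x : X} (D : ℕ → Nb G A x) :
    ∃ R : ℕ → Nb G A x, (∀ n, (R n).v ⊆ (D n).v) ∧ ∀ n, (R (n + 1)).v ⊆ (R n).v := by
  choose I hI1 hI2 using h.nb_inter (x := x)
  let R : ℕ → Nb G A x := fun n => Nat.rec (D 0) (fun n p => I p (D (n + 1))) n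
  refine ⟨R, ?_, ?_⟩
  · intro n
    cases n with
    | zero => exact Subset.refl _
    | succ n => exact hI2 _ _
  · intro n
    exact hI1 _ _

theorem Good.embed {A : Set (Set X)} (h : Good G A) {x : X} (hx : Gen G A x)
    {z : X} (hz : z ∈ Cl G A x) {V : ℕ → Set G} (hV : ∀ n, IsOpen (V n))
    (h1 : ∀ n, 1 ∈ V n) (c : ℕ → Nb G A x) :
    ∃ f : ℕ → G, (∀ n, f (n + 1) * (f n)⁻¹ ∈ V n) ∧ (∀ n, f n • z ∈ (c n).v) ∧
      ∀ b ∈ A, ∀ k, x ∈ Vt b (bas G k) → ∀ᶠ n in atTop, f n • z ∈ Vt b (bas G k) := by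
  choose a ha U hU hxU hK using fun n => h.gen_K hx (hV n) (h1 n)
  obtain ⟨e, he⟩ := h.countable.exists_eq_range ⟨_, h.unv⟩
  have hD : ∀ n, ∃ r : Nb G A x, r.v ⊆ (c n).v ∧ r.v ⊆ Vt (a n) (U n) ∧
      (x ∈ Vt (e (Nat.unpair n).1) (bas G (Nat.unpair n).2) →
        r.v ⊆ Vt (e (Nat.unpair n).1) (bas G (Nat.unpair n).2)) := by
    intro n
    obtain ⟨r, hr1, hr2⟩ := h.nb_inter (c n) ⟨a n, U n, ha n, hU n, hxU n⟩
    by_cases hc : x ∈ Vt (e (Nat.unpair n).1) (bas G (Nat.unpair n).2)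
    · obtain ⟨q, hq1, hq2⟩ := h.nb_inter r ⟨e (Nat.unpair n).1, bas G (Nat.unpair n).2,
        he ▸ mem_range_self _, bas_open G _, hc⟩
      exact ⟨q, hq1.trans hr1, hq1.trans hr2, fun _ => hq2⟩
    · exact ⟨r, hr1, hr2, fun h => absurd h hc⟩
  choose D hD1 hD2 hD3 using hD
  obtain ⟨R, hR1, hR2⟩ := h.nb_chain D
  have h0 : ∃ g : G, g • z ∈ (R 0).v := by
    have h2 : x ∈ Vt (R 0).s (univ : Set G) := Vt_mono (Subset.refl _) (subset_univ _) (R 0).hx
    rw [← hz _ (R 0).mem] at h2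
    obtain ⟨g, -, hg1, hg2⟩ := (h.vt_iff (R 0).mem isOpen_univ).1 h2
    obtain ⟨w, hw, -⟩ := exists_of_Vt (R 0).hx
    refine ⟨w⁻¹ * g, (h.vt_iff (R 0).mem (R 0).op).2 ⟨w, hw, ?_, ?_⟩⟩
    · simpa [mul_smul] using hg1
    · simpa [mul_smul] using hg2
  have hstep : ∀ n, ∀ g : {g : G // g • z ∈ (R n).v}, ∃ g' : {g : G // g • z ∈ (R (n + 1)).v},
      g'.1 * g.1⁻¹ ∈ V n := by
    rintro n ⟨g, hg⟩
    obtain ⟨v, hv, hvz⟩ := hK n (g • z) (hD2 n (hR1 n hg)) (Cl_smul hz g) (R (n + 1)).s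
      (R (n + 1)).mem (R (n + 1)).U (R (n + 1)).op (R (n + 1)).hx
    refine ⟨⟨v * g, ?_⟩, ?_⟩
    · rw [mul_smul]; exact hvz
    · simpa using hv
  choose N hN using hstep
  let F : ∀ n, {g : G // g • z ∈ (R n).v} := fun n => Nat.rec ⟨h0.choose, h0.choose_spec⟩ N n
  have hRm : ∀ n k, n ≤ k → (R k).v ⊆ (R n).v := by
    intro n k hk
    induction k, hk using Nat.le_induction with
    | base => exact Subset.refl _
    | succ k _ ih => exact (hR2 k).trans ih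
  refine ⟨fun n => (F n).1, fun n => hN n (F n), fun n => hD1 n (hR1 n (F n).2), ?_⟩
  intro b hb k hxb
  have hb' : b ∈ range e := he ▸ hb
  obtain ⟨j, rfl⟩ := hb'
  filter_upwards [eventually_ge_atTop (Nat.pair j k)] with n hn
  have h3 := hD3 (Nat.pair j k)
  rw [Nat.unpair_pair] at h3
  exact h3 hxb (hR1 _ (hRm _ _ hn (F n).2))

theorem Good.not_tendsto {A : Set (Set X)} (h : Good G A) {x z : X}
    (hxz : ∀ g : G, g • z ≠ x) {f : ℕ → G}
    (hf : ∀ b ∈ A, ∀ k, x ∈ Vt b (bas G k) → ∀ᶠ n in atTop, f n • z ∈ Vt b (bas G k)) :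
    ¬ ∃ g, Tendsto f atTop (𝓝 g) := by
  rintro ⟨g, hg⟩
  obtain ⟨s, hs, k, h1, h2⟩ := h.sep_vt (hxz g).symm
  obtain ⟨i, O, hO, h1O, hxi, hm⟩ := Vt_shrink (bas_open G k) h1
  have h3 : Tendsto (fun n => f n * g⁻¹) atTop (𝓝 (g * g⁻¹)) := hg.mul_const _
  rw [mul_inv_cancel] at h3
  obtain ⟨n, hn1, hn2⟩ := ((hf s hs i hxi).and (h3.eventually (hO.mem_nhds h1O))).exists
  apply h2
  have h4 := Vt_shift (o := g * (f n)⁻¹) (W := bas G k) hn1 (fun u hu => by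
    have := hm u hu _ hn2
    simpa using this)
  simpa [smul_smul] using h4

end Pool.Agent.H657.CL
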