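import Pool.Agent.H657.CL.Refl

set_option autoImplicit false
set_option linter.unusedSectionVars false
set_option linter.deprecated false
set_option linter.style.haveILetI false

/-!
The dichotomy for actions whose stabilisers are complete.
-/

namespace Pool.Agent.H657.CL

open Set Filter Topology MeasureTheory TopologicalSpace

variable {G : Type*} [TopologicalSpace G] [Group G] [IsTopologicalGroup G] [PolishSpace G]
  [MeasurableSpace G] [BorelSpace G]
variable {X : Type*} [m : MeasurableSpace X] [MulAction G X] [MeasurableSMul₂ G X]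

theorem Cl_meas {A : Set (Set X)} (h : Good G A) :
    MeasurableSet {q : X × X | q.2 ∈ Cl G A q.1} := by
  have h1 : {q : X × X | q.2 ∈ Cl G A q.1} = ⋂ s ∈ A, {q : X × X |
      q.2 ∈ Vt s (univ : Set G) ↔ q.1 ∈ Vt s (univ : Set G)} := by
    ext q
    simp only [mem_iInter]
    rfl
  rw [h1]
  refine MeasurableSet.biInter h.countable fun s hs => ?_
  have h2 : MeasurableSet (Vt s (univ : Set G)) := Vt_meas (h.meas s hs) isOpen_univ
  exact measurableSet_setOf.2 (((h2.preimage measurable_snd).mem).iff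
    ((h2.preimage measurable_fst).mem))

theorem countable_classes [StandardBorelSpace X] (hthin : Thin G X) {A : Set (Set X)}
    (h : Good G A) : ∃ S : Set X, S.Countable ∧ ∀ x, ∃ s ∈ S, x ∈ Cl G A s := by
  obtain ⟨t, ht, hp⟩ := StandardBorelSpace.polish (α := X)
  rcases Pool.Agent.H579R3.SV.silver (X := X) (E := fun x y => y ∈ Cl G A x)
    ⟨fun x s _ => Iff.rfl, fun h s hs => (h s hs).symm,
      fun h h' s hs => (h' s hs).trans (h s hs)⟩ (Cl_meas h)
      (A := univ) MeasurableSet.univ.analyticSet with h1 | h1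
  · obtain ⟨S, -, h2, h3⟩ := h1
    refine ⟨S, h2, fun x => ?_⟩
    obtain ⟨s, hs, h4⟩ := h3 x trivial
    exact ⟨s, hs, fun a ha => (h4 a ha).symm⟩
  · obtain ⟨f, hf, -, hf2⟩ := h1
    refine (hthin ⟨f, hf.measurable, fun b b' hbb hg => hf2 b b' hbb ?_⟩).elim
    obtain ⟨g, hg⟩ := hg
    rw [← hg]
    exact Cl_smul (fun _ _ => Iff.rfl) g

/-- the key step: if a class of a suitable algebra contains two orbits, then some stabiliser
is not complete -/
theorem main [StandardBorelSpace X] (hst : CStab G X) :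
    Countable (Quotient (MulAction.orbitRel G X)) ∨
      ∃ f : (ℕ → Bool) → X, Measurable f ∧
        ∀ x y : ℕ → Bool, x ≠ y → ¬ ∃ g : G, g • f x = f y := by
  by_cases hthin : Thin G X
  swap
  · exact Or.inr (not_not.1 hthin)
  left
  obtain ⟨V, hVo, hV1, hVi, hVm, hV3, hVb⟩ := exists_nbh G
  obtain ⟨Q, hQm, hQ1, hQ2⟩ := reflect hst hVo hVi hVm hV3 hVb
  choose C hC1 hC2 hC3 using fun k => cap_all (G := G) hthin (hQm k)
  obtain ⟨A, hCA, hA⟩ := exists_good G (⋃ k, C k) (countable_iUnion hC1) (by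
    intro a ha
    obtain ⟨k, hk⟩ := mem_iUnion.1 ha
    exact hC2 k a hk)
  have hcap : ∀ k, Captures G A (Q k) := fun k =>
    hC3 k A hA ((subset_iUnion C k).trans hCA)
  obtain ⟨S, hSc, hS⟩ := countable_classes hthin hA
  have hVa : ∀ n k, n ≤ k → V k ⊆ V n := by
    intro n k hk
    induction k, hk using Nat.le_induction with
    | base => exact Subset.refl _
    | succ k _ ih => exact (hVm k).trans ih
  have hone : ∀ x : X, ∀ z ∈ Cl G A x, ∃ g : G, g • z = x := by
    by_contra hc
    push Not at hc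
    obtain ⟨x0, z0, hz0, hne⟩ := hc
    obtain ⟨x, hxC, hxg⟩ := hA.exists_gen hthin x0
    have hz : ∃ z ∈ Cl G A x, ∀ g : G, g • z ≠ x := by
      by_contra hc
      push Not at hc
      rw [Cl_eq hxC] at hc
      obtain ⟨g1, hg1⟩ := hc x0 (fun _ _ => Iff.rfl)
      obtain ⟨g2, hg2⟩ := hc z0 hz0
      refine hne (g1⁻¹ * g2) ?_
      rw [mul_smul, hg2, ← hg1, inv_smul_smul]
    obtain ⟨z, hzC, hzx⟩ := hz
    have hc : ∀ n, ∃ p : Nb G A x, p.v ⊆ Vt {t | (x, t) ∈ Q n} (V (n + 1)) := by
      intro n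
      obtain ⟨a, ha, W, hW, h1, h2⟩ := hcap n x x (V (n + 1)) (hVo _)
        (Vt_of_open (hVo (n + 1)) ⟨1, hV1 _⟩ (Subset.refl _) (fun v hv => hQ1 n x v (hVm n hv)))
      exact ⟨⟨a, W, ha, hW, h1⟩, h2⟩
    choose c hc using hc
    obtain ⟨f, hf1, hf2, hf3⟩ := hA.embed hxg hzC (V := fun n => V (n + 2)) (fun n => hVo _)
      (fun n => hV1 _) c
    have hf4 : ∀ d k, f (k + d) * (f k)⁻¹ ∈ V (k + 1) := by
      intro d
      induction d with
      | zero =>
        intro k
        show f k * (f k)⁻¹ ∈ V (k + 1)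
        rw [mul_inv_cancel]
        exact hV1 _
      | succ d ih =>
        intro k
        have h1 := ih (k + 1)
        have h2 := hV3 (k + 1) _ h1 _ (hf1 k) _ (hV1 _)
        have h3 : f (k + 1 + d) * (f (k + 1))⁻¹ * (f (k + 1) * (f k)⁻¹) * 1 =
            f (k + (d + 1)) * (f k)⁻¹ := by
          rw [show k + (d + 1) = k + 1 + d by ring]
          group
        rw [h3] at h2
        exact h2
    have hf5 : ∀ k, ∀ n ≥ k, ∀ j ≥ k, f n * (f j)⁻¹ ∈ V (k + 1) := by
      intro k n hn j hj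
      rcases le_total n j with h1 | h1
      · obtain ⟨d, rfl⟩ := Nat.exists_eq_add_of_le h1
        have h2 := hVi _ _ (hf4 d n)
        rw [mul_inv_rev, inv_inv] at h2
        exact hVa _ _ (by omega) h2
      · obtain ⟨d, rfl⟩ := Nat.exists_eq_add_of_le h1
        exact hVa _ _ (by omega) (hf4 d j)
    have hg : ∀ n, ∃ g ∈ V (n + 1), (x, g • f n • z) ∈ Q n := fun n =>
      exists_of_Vt (hc n (hf2 n))
    choose g hg1 hg2 using hg
    obtain ⟨l, hl⟩ := hQ2 x z (fun n => g n * f n) (by
      intro k n hn j hj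
      have h1 := hV3 k _ (hVa _ _ (by omega) (hg1 n)) _ (hf5 k n hn j hj) _
        (hVa _ _ (by omega) (hVi _ _ (hg1 j)))
      have h2 : g n * f n * (g j * f j)⁻¹ = g n * (f n * (f j)⁻¹) * (g j)⁻¹ := by group
      rw [h2]
      exact h1) (by
      intro k
      rw [mul_smul]
      exact hg2 k)
    have hg0 : Tendsto g atTop (𝓝 1) := by
      rw [tendsto_nhds]
      intro O hO h1O
      obtain ⟨n, hn⟩ := hVb O hO h1O
      filter_upwards [eventually_ge_atTop n] with k hk
      exact hn (hVa _ _ (by omega) (hg1 k))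
    refine hA.not_tendsto hzx hf3 ⟨1⁻¹ * l, (hg0.inv.mul hl).congr ?_⟩
    intro n
    group
  have : Countable S := hSc.to_subtype
  refine Function.Surjective.countable (f := fun s : S =>
    (Quotient.mk (MulAction.orbitRel G X) s.1)) ?_
  intro q
  induction q using Quotient.inductionOn with
  | h x =>
    obtain ⟨s, hs, hxs⟩ := hS x
    obtain ⟨g, hg⟩ := hone s x hxs
    exact ⟨⟨s, hs⟩, Quotient.sound ⟨g, hg⟩⟩

end Pool.Agent.H657.CL
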