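import Pool.Agent.H657.CL.Rel

set_option autoImplicit false
set_option linter.unusedSectionVars false
set_option linter.deprecated false
set_option linter.style.haveILetI false

/-!
The dichotomy relative to a closed normal subgroup.
-/

namespace Pool.Agent.H657.CL

open Set Filter Topology MeasureTheory TopologicalSpace

section

variable {G : Type*} [TopologicalSpace G] [Group G] [IsTopologicalGroup G] [PolishSpace G]
  [MeasurableSpace G] [BorelSpace G]
variable {X : Type*} [m : MeasurableSpace X] [MulAction G X] [MeasurableSMul₂ G X]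

theorem mainN [StandardBorelSpace X] (N : Subgroup G) [hNn : N.Normal]
    (hN : IsClosed (N : Set G)) (hB : MeasurableSet {q : X × X | ∃ n ∈ N, n • q.1 = q.2})
    (hst : CStabN N X) :
    Countable (Quotient (MulAction.orbitRel G X)) ∨
      ∃ f : (ℕ → Bool) → X, Measurable f ∧
        ∀ x y : ℕ → Bool, x ≠ y → ¬ ∃ g : G, g • f x = f y := by
  by_cases hthin : Thin G X
  swap
  · exact Or.inr (not_not.1 hthin)
  left
  obtain ⟨V, hVo, hV1, hVi, hVm, hV3, hVb⟩ := exists_nbh G
  obtain ⟨Q, hQm, hQ1, hQ2⟩ := reflectN N hN hB hst hVo hV1 hVi hVm hV3 hVb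
  choose C hC1 hC2 hC3 using fun k => cap_all (G := G) hthin (hQm k)
  obtain ⟨A, hCA, hA⟩ := exists_good G (⋃ k, C k) (countable_iUnion hC1) (by
    intro a ha
    obtain ⟨k, hk⟩ := mem_iUnion.1 ha
    exact hC2 k a hk)
  have hcap : ∀ k, Captures G A (Q k) := fun k =>
    hC3 k A hA ((subset_iUnion C k).trans hCA)
  obtain ⟨S, hSc, hS⟩ := countable_classes hthin hA
  have hVa : ∀ n k, n ≤ k → V k ⊆ V n := by
    intro n k hk
    induction k, hk using Nat.le_induction with
    | base => exact Subset.refl _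
    | succ k _ ih => exact (hVm k).trans ih
  have hone : ∀ x : X, ∀ z ∈ Cl G A x, ∃ g : G, g • z = x := by
    by_contra hc
    push Not at hc
    obtain ⟨x0, z0, hz0, hne⟩ := hc
    obtain ⟨x, hxC, hxg⟩ := hA.exists_gen hthin x0
    have hz : ∃ z ∈ Cl G A x, ∀ g : G, g • z ≠ x := by
      by_contra hc
      push Not at hc
      rw [Cl_eq hxC] at hc
      obtain ⟨g1, hg1⟩ := hc x0 (fun _ _ => Iff.rfl)
      obtain ⟨g2, hg2⟩ := hc z0 hz0
      refine hne (g1⁻¹ * g2) ?_
      rw [mul_smul, hg2, ← hg1, inv_smul_smul]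
    obtain ⟨z, hzC, hzx⟩ := hz
    have hc : ∀ n, ∃ p : Nb G A x, p.v ⊆ Vt {t | (x, t) ∈ Q n} (V (n + 1)) := by
      intro n
      obtain ⟨a, ha, W, hW, h1, h2⟩ := hcap n x x (V (n + 1)) (hVo _)
        (Vt_of_open (hVo (n + 1)) ⟨1, hV1 _⟩ (Subset.refl _) (fun v hv => hQ1 n x v (hVm n hv)))
      exact ⟨⟨a, W, ha, hW, h1⟩, h2⟩
    choose c hc using hc
    obtain ⟨f, hf1, hf2, hf3⟩ := hA.embed hxg hzC (V := fun n => V (n + 2)) (fun n => hVo _)
      (fun n => hV1 _) c
    have hf4 : ∀ d k, f (k + d) * (f k)⁻¹ ∈ V (k + 1) := by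
      intro d
      induction d with
      | zero =>
        intro k
        show f k * (f k)⁻¹ ∈ V (k + 1)
        rw [mul_inv_cancel]
        exact hV1 _
      | succ d ih =>
        intro k
        have h1 := ih (k + 1)
        have h2 := hV3 (k + 1) _ h1 _ (hf1 k) _ (hV1 _)
        have h3 : f (k + 1 + d) * (f (k + 1))⁻¹ * (f (k + 1) * (f k)⁻¹) * 1 =
            f (k + (d + 1)) * (f k)⁻¹ := by
          rw [show k + (d + 1) = k + 1 + d by ring]
          group
        rw [h3] at h2
        exact h2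
    have hf5 : ∀ k, ∀ n ≥ k, ∀ j ≥ k, f n * (f j)⁻¹ ∈ V (k + 1) := by
      intro k n hn j hj
      rcases le_total n j with h1 | h1
      · obtain ⟨d, rfl⟩ := Nat.exists_eq_add_of_le h1
        have h2 := hVi _ _ (hf4 d n)
        rw [mul_inv_rev, inv_inv] at h2
        exact hVa _ _ (by omega) h2
      · obtain ⟨d, rfl⟩ := Nat.exists_eq_add_of_le h1
        exact hVa _ _ (by omega) (hf4 d j)
    have hg : ∀ n, ∃ g ∈ V (n + 1), (x, g • f n • z) ∈ Q n := fun n =>
      exists_of_Vt (hc n (hf2 n))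
    choose g hg1 hg2 using hg
    obtain ⟨l, hl⟩ := hQ2 x z (fun n => g n * f n) (by
      intro k n hn j hj
      have h1 := hV3 k _ (hVa _ _ (by omega) (hg1 n)) _ (hf5 k n hn j hj) _
        (hVa _ _ (by omega) (hVi _ _ (hg1 j)))
      have h2 : g n * f n * (g j * f j)⁻¹ = g n * (f n * (f j)⁻¹) * (g j)⁻¹ := by group
      rw [h2]
      exact h1) (by
      intro k
      rw [mul_smul]
      exact hg2 k)
    exact hzx l hl
  have : Countable S := hSc.to_subtype
  refine Function.Surjective.countable (f := fun s : S =>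
    (Quotient.mk (MulAction.orbitRel G X) s.1)) ?_
  intro q
  induction q using Quotient.inductionOn with
  | h x =>
    obtain ⟨s, hs, hxs⟩ := hS x
    obtain ⟨g, hg⟩ := hone s x hxs
    exact ⟨⟨s, hs⟩, Quotient.sound ⟨g, hg⟩⟩

end

end Pool.Agent.H657.CL
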