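import Pool.Agent.H657.CL.Alg

set_option autoImplicit false
set_option linter.unusedSectionVars false
set_option linter.deprecated false
set_option linter.style.haveILetI false

/-!
Stabilisers are closed and orbits are Borel.
-/

namespace Pool.Agent.H657.CL

open Set Filter Topology MeasureTheory TopologicalSpace

variable {G : Type*} [TopologicalSpace G] [Group G] [IsTopologicalGroup G] [PolishSpace G]
  [MeasurableSpace G] [BorelSpace G]

section sel

/-- the cosets which meet an open set -/
def Mt (H : Subgroup G) (O : Set G) : Set G := {g | ∃ h ∈ H, g * h ∈ O}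

theorem Mt_open (H : Subgroup G) {O : Set G} (hO : IsOpen O) : IsOpen (Mt H O) := by
  have : Mt H O = ⋃ h ∈ H, (fun g => g * h) ⁻¹' O := by
    ext g
    simp only [mem_iUnion, mem_preimage]
    exact ⟨fun ⟨h, h1, h2⟩ => ⟨h, h1, h2⟩, fun ⟨h, h1, h2⟩ => ⟨h, h1, h2⟩⟩
  rw [this]
  exact isOpen_biUnion fun h _ => hO.preimage (by fun_prop)

theorem Mt_inv (H : Subgroup G) (O : Set G) (g : G) {h : G} (hh : h ∈ H) :
    g * h ∈ Mt H O ↔ g ∈ Mt H O := by
  constructor
  · rintro ⟨k, hk, hk2⟩
    exact ⟨h * k, H.mul_mem hh hk, by rwa [← mul_assoc]⟩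
  · rintro ⟨k, hk, hk2⟩
    exact ⟨h⁻¹ * k, H.mul_mem (H.inv_mem hh) hk, by simpa [mul_assoc] using hk2⟩

open Classical in
/-- the least index with a property, or zero -/
noncomputable def idx (H : Subgroup G) (O : List ℕ → Set G) (l : List ℕ) (g : G) : ℕ :=
  if h : ∃ i, g ∈ Mt H (O (i :: l)) then Nat.find h else 0

/-- the indices chosen so far -/
noncomputable def sts (H : Subgroup G) (O : List ℕ → Set G) : ℕ → G → List ℕ
  | 0, _ => []
  | n + 1, g => idx H O (sts H O n g) g :: sts H O n g

theorem idx_inv (H : Subgroup G) (O : List ℕ → Set G) (l : List ℕ) (g : G) {h : G}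
    (hh : h ∈ H) : idx H O l (g * h) = idx H O l g := by
  classical
  unfold idx
  have h1 : ∀ i, (g * h ∈ Mt H (O (i :: l))) = (g ∈ Mt H (O (i :: l))) := fun i =>
    propext (Mt_inv H _ g hh)
  simp only [h1]

theorem sts_inv (H : Subgroup G) (O : List ℕ → Set G) (n : ℕ) (g : G) {h : G}
    (hh : h ∈ H) : sts H O n (g * h) = sts H O n g := by
  induction n with
  | zero => rfl
  | succ n ih =>
    show idx H O (sts H O n (g * h)) (g * h) :: sts H O n (g * h) = _
    rw [ih, idx_inv H O _ g hh]
    rfl

theorem idx_meas (H : Subgroup G) {O : List ℕ → Set G} (hO : ∀ l, IsOpen (O l)) (l : List ℕ)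
    (i : ℕ) : MeasurableSet {g | idx H O l g = i} := by
  classical
  have hM : ∀ j, MeasurableSet (Mt H (O (j :: l))) := fun j => (Mt_open H (hO _)).measurableSet
  have h1 : {g | idx H O l g = i} =
      (Mt H (O (i :: l)) ∩ ⋂ j, ⋂ (_ : j < i), (Mt H (O (j :: l)))ᶜ) ∪
      ((⋂ j, (Mt H (O (j :: l)))ᶜ) ∩ {_g | i = 0}) := by
    ext g
    constructor
    · intro hg
      have hg' : idx H O l g = i := hg
      unfold idx at hg'
      split_ifs at hg' with h
      · left
        refine ⟨?_, ?_⟩
        · rw [← hg']
          exact Nat.find_spec h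
        · simp only [mem_iInter]
          intro j hj
          rw [← hg'] at hj
          exact Nat.find_min h hj
      · right
        refine ⟨?_, hg'.symm⟩
        simp only [mem_iInter]
        intro j hj
        exact h ⟨j, hj⟩
    · rintro (⟨h2, h3⟩ | ⟨h2, h3⟩)
      · show idx H O l g = i
        unfold idx
        have h : ∃ i, g ∈ Mt H (O (i :: l)) := ⟨i, h2⟩
        rw [dif_pos h, Nat.find_eq_iff]
        refine ⟨h2, fun j hj => ?_⟩
        simp only [mem_iInter] at h3
        exact h3 j hj
      · show idx H O l g = i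
        unfold idx
        have h : ¬ ∃ i, g ∈ Mt H (O (i :: l)) := by
          rintro ⟨j, hj⟩
          simp only [mem_iInter] at h2
          exact h2 j hj
        rw [dif_neg h]
        exact h3.symm
  rw [h1]
  refine ((hM i).inter (MeasurableSet.iInter fun j => MeasurableSet.iInter fun _ =>
    (hM j).compl)).union ((MeasurableSet.iInter fun j => (hM j).compl).inter ?_)
  exact MeasurableSet.const _

theorem sts_meas (H : Subgroup G) {O : List ℕ → Set G} (hO : ∀ l, IsOpen (O l)) (n : ℕ)
    (l : List ℕ) : MeasurableSet {g | sts H O n g = l} := by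
  induction n generalizing l with
  | zero => exact MeasurableSet.const ([] = l)
  | succ n ih =>
    cases l with
    | nil =>
      have : {g | sts H O (n + 1) g = []} = ∅ := by
        rw [eq_empty_iff_forall_notMem]
        intro g hg
        exact List.cons_ne_nil _ _ hg
      rw [this]
      exact MeasurableSet.empty
    | cons i l =>
      have : {g | sts H O (n + 1) g = i :: l} = {g | sts H O n g = l} ∩ {g | idx H O l g = i} := by
        ext g
        constructor
        · intro hg
          have hg' : idx H O (sts H O n g) g :: sts H O n g = i :: l := hg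
          have h1 := List.cons.inj hg'
          refine ⟨h1.2, ?_⟩
          have h2 := h1.1
          rw [h1.2] at h2
          exact h2
        · rintro ⟨h1, h2⟩
          have h1' : sts H O n g = l := h1
          have h2' : idx H O l g = i := h2
          show idx H O (sts H O n g) g :: sts H O n g = i :: l
          rw [h1', h2']
      rw [this]
      exact (ih l).inter (idx_meas H hO l i)

/-- a Borel selector for the left cosets of a closed subgroup -/
theorem exists_selector (H : Subgroup G) (hH : IsClosed (H : Set G)) :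
    ∃ f : G → G, Measurable f ∧ (∀ g, g⁻¹ * f g ∈ H) ∧
      ∀ g, ∀ h ∈ H, f (g * h) = f g := by
  classical
  letI := TopologicalSpace.upgradeIsCompletelyMetrizable G
  let d : ℕ → G := denseSeq G
  have hd : DenseRange d := denseRange_denseSeq G
  let r : ℕ → ℝ := fun n => 1 / 2 / 2 ^ n
  have hr : ∀ n, 0 < r n := fun n => by positivity
  let O : List ℕ → Set G := fun l => List.rec univ
    (fun i l O => Metric.ball (d i) (r l.length) ∩ O) l
  have hOs : ∀ i l, O (i :: l) = Metric.ball (d i) (r l.length) ∩ O l := fun i l => rfl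
  have hO : ∀ l, IsOpen (O l) := by
    intro l
    induction l with
    | nil => exact isOpen_univ
    | cons i l ih =>
      rw [hOs]
      exact Metric.isOpen_ball.inter ih
  have hlen : ∀ n g, (sts H O n g).length = n := by
    intro n g
    induction n with
    | zero => rfl
    | succ n ih =>
      show (_ :: sts H O n g).length = n + 1
      rw [List.length_cons, ih]
  have hmem : ∀ n g, g ∈ Mt H (O (sts H O n g)) := by
    intro n g
    induction n with
    | zero => exact ⟨1, H.one_mem, trivial⟩
    | succ n ih =>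
      obtain ⟨h, hh, hg⟩ := ih
      have hex : ∃ i, g ∈ Mt H (O (i :: sts H O n g)) := by
        obtain ⟨i, hi⟩ := hd.exists_dist_lt (g * h) (hr (sts H O n g).length)
        exact ⟨i, h, hh, hi, hg⟩
      show g ∈ Mt H (O (idx H O (sts H O n g) g :: sts H O n g))
      unfold idx
      rw [dif_pos hex]
      exact Nat.find_spec hex
  let p : ℕ → G → G := fun n g => d (sts H O (n + 1) g).headI
  have hpi : ∀ n g, p n g = d (idx H O (sts H O n g) g) := fun n g => rfl
  have hball : ∀ n g, ∀ q ∈ O (sts H O (n + 1) g), dist q (p n g) < r n := by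
    intro n g q hq
    have h1 : q ∈ Metric.ball (d (idx H O (sts H O n g) g)) (r (sts H O n g).length) ∩
        O (sts H O n g) := hq
    have h2 := h1.1
    rw [hlen] at h2
    exact h2
  have hsub : ∀ n g, O (sts H O (n + 1) g) ⊆ O (sts H O n g) := by
    intro n g q hq
    have h1 : q ∈ Metric.ball (d (idx H O (sts H O n g) g)) (r (sts H O n g).length) ∩
        O (sts H O n g) := hq
    exact h1.2
  have hcau : ∀ g, ∀ n, dist (p n g) (p (n + 1) g) ≤ 2 / 2 / 2 ^ n := by
    intro g n
    obtain ⟨h, -, hg⟩ := hmem (n + 2) g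
    have h1 := hball (n + 1) g _ hg
    have h2 := hball n g _ (hsub (n + 1) g hg)
    have h3 : r (n + 1) ≤ r n := by
      show (1 / 2 / 2 ^ (n + 1) : ℝ) ≤ 1 / 2 / 2 ^ n
      gcongr
      · norm_num
      · omega
    have h4 : (2 / 2 / 2 ^ n : ℝ) = r n + r n := by
      show (2 / 2 / 2 ^ n : ℝ) = 1 / 2 / 2 ^ n + 1 / 2 / 2 ^ n
      ring
    rw [h4]
    calc dist (p n g) (p (n + 1) g) ≤ dist (g * h) (p n g) + dist (g * h) (p (n + 1) g) := by
          rw [dist_comm (g * h) (p n g)]
          exact dist_triangle _ _ _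
      _ ≤ r n + r n := by linarith
  have hlim : ∀ g, ∃ q, Tendsto (fun n => p n g) atTop (𝓝 q) := fun g =>
    cauchySeq_tendsto_of_complete (cauchySeq_of_le_geometric_two (hcau g))
  choose f hf using hlim
  have hpm : ∀ n, Measurable (p n) := by
    intro n
    letI : MeasurableSpace (List ℕ) := ⊤
    have h1 : Measurable (sts H O (n + 1)) :=
      measurable_to_countable' fun l => sts_meas H hO (n + 1) l
    have h2 : Measurable fun l : List ℕ => d l.headI := measurable_from_top
    exact h2.comp h1
  refine ⟨f, ?_, ?_, ?_⟩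
  · exact measurable_of_tendsto_metrizable hpm (tendsto_pi_nhds.2 hf)
  · intro g
    have h1 : ∀ n, ∃ h ∈ H, g * h ∈ O (sts H O (n + 1) g) := fun n => hmem (n + 1) g
    choose h hh hg using h1
    have h2 : Tendsto (fun n => g * h n) atTop (𝓝 (f g)) := by
      have h3 : Tendsto (fun n => dist (g * h n) (p n g)) atTop (𝓝 0) := by
        refine squeeze_zero (fun n => dist_nonneg) (fun n => (hball n g _ (hg n)).le) ?_
        have h4 : Tendsto (fun n : ℕ => (1 / 2 : ℝ) * (1 / 2) ^ n) atTop (𝓝 (1 / 2 * 0)) :=
          (tendsto_pow_atTop_nhds_zero_of_lt_one (by norm_num) (by norm_num)).const_mul _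
        rw [mul_zero] at h4
        refine h4.congr fun n => ?_
        show (1 / 2 : ℝ) * (1 / 2) ^ n = 1 / 2 / 2 ^ n
        rw [div_pow, one_pow]
        ring
      exact (tendsto_iff_of_dist h3).2 (hf g)
    have h5 : Tendsto (fun n => g⁻¹ * (g * h n)) atTop (𝓝 (g⁻¹ * f g)) := h2.const_mul _
    refine hH.mem_of_tendsto h5 (Eventually.of_forall fun n => ?_)
    simpa using hh n
  · intro g h hh
    refine tendsto_nhds_unique (hf (g * h)) ((hf g).congr fun n => ?_)
    show d _ = d _
    rw [sts_inv H O (n + 1) g hh]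

end sel

variable {X : Type*} [m : MeasurableSpace X] [MulAction G X] [MeasurableSMul₂ G X]

theorem stab_closed [StandardBorelSpace X] (x : X) :
    IsClosed (MulAction.stabilizer G x : Set G) := by
  obtain ⟨A, -, hA⟩ := exists_good G (X := X) ∅ countable_empty (fun a ha => absurd ha (by simp))
  rw [← isOpen_compl_iff, isOpen_iff_forall_mem_open]
  intro g hg
  have hg' : g • x ≠ x := fun h => hg h
  obtain ⟨s, hs, k, h1, h2⟩ := hA.sep_vt hg'
  refine ⟨{v : G | v • x ∈ Vt s (bas G k)}, ?_, Vt_open (bas_open G k) x, h1⟩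
  intro v hv hvx
  have h3 : v • x = x := hvx
  have h4 : v • x ∈ Vt s (bas G k) := hv
  rw [h3] at h4
  exact h2 h4

/-- orbits are Borel -/
theorem orbit_meas [StandardBorelSpace X] (x : X) : MeasurableSet {y : X | ∃ g : G, g • x = y} := by
  obtain ⟨f, hf, hf1, hf2⟩ := exists_selector (MulAction.stabilizer G x) (stab_closed x)
  have hT : MeasurableSet {g : G | f g = g} := measurableSet_eq_fun hf measurable_id
  have h1 : {y : X | ∃ g : G, g • x = y} = (fun g : G => g • x) '' {g : G | f g = g} := by
    ext y
    constructor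
    · rintro ⟨g, rfl⟩
      refine ⟨f g, ?_, ?_⟩
      · show f (f g) = f g
        have := hf2 g _ (hf1 g)
        rwa [mul_inv_cancel_left] at this
      · have h2 : (g⁻¹ * f g) • x = x := hf1 g
        rw [mul_smul] at h2
        show f g • x = g • x
        rw [← h2, smul_inv_smul, h2]
    · rintro ⟨g, -, rfl⟩
      exact ⟨g, rfl⟩
  rw [h1]
  refine hT.image_of_measurable_injOn (measurable_id.smul_const x) ?_
  intro g hg g' hg' he
  have he' : g • x = g' • x := he
  have h2 : g⁻¹ * g' ∈ MulAction.stabilizer G x := by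
    show (g⁻¹ * g') • x = x
    rw [mul_smul, ← he', inv_smul_smul]
  have h3 := hf2 g _ h2
  rw [mul_inv_cancel_left] at h3
  have h4 : f g = g := hg
  have h5 : f g' = g' := hg'
  rw [← h4, ← h5, h3]

end Pool.Agent.H657.CL
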