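import Pool.Agent.H657.CL.Cap
import Pool.Graph.R_seed8.H579R3.SC

set_option autoImplicit false
set_option linter.unusedSectionVars false
set_option linter.deprecated false
set_option linter.style.haveILetI false

/-!
Reflection, and the dichotomy for actions whose stabilisers are complete.
-/

namespace Pool.Agent.H657.CL

open Set Filter Topology MeasureTheory TopologicalSpace

section nbh

variable (G : Type*) [TopologicalSpace G] [Group G] [IsTopologicalGroup G] [PolishSpace G]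

theorem exists_nbh : ∃ V : ℕ → Set G, (∀ n, IsOpen (V n)) ∧ (∀ n, 1 ∈ V n) ∧
    (∀ n, ∀ a ∈ V n, a⁻¹ ∈ V n) ∧ (∀ n, V (n + 1) ⊆ V n) ∧
    (∀ n, ∀ a ∈ V (n + 1), ∀ b ∈ V (n + 1), ∀ c ∈ V (n + 1), a * b * c ∈ V n) ∧
    ∀ O : Set G, IsOpen O → 1 ∈ O → ∃ n, V n ⊆ O := by
  obtain ⟨B, hB⟩ := (nhds (1 : G)).exists_antitone_basis
  have hstep : ∀ (n : ℕ) (V : {V : Set G // IsOpen V ∧ 1 ∈ V}),
      ∃ W : {V : Set G // IsOpen V ∧ 1 ∈ V}, (∀ a ∈ W.1, a⁻¹ ∈ W.1) ∧ W.1 ⊆ V.1 ∧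
      (∀ a ∈ W.1, ∀ b ∈ W.1, ∀ c ∈ W.1, a * b * c ∈ V.1) ∧ W.1 ⊆ B n := by
    rintro n ⟨V, hV, h1⟩
    have hc : Continuous fun p : G × G × G => p.1 * p.2.1 * p.2.2 := by fun_prop
    have ho := hV.preimage hc
    obtain ⟨S1, T1, hS1, hT1, h2, h3, h4⟩ := isOpen_prod_iff.1 ho 1 (1, 1) (by simpa using h1)
    obtain ⟨S2, S3, hS2, hS3, h5, h6, h7⟩ := isOpen_prod_iff.1 hT1 1 1 h3
    have hBn : B n ∈ nhds (1 : G) := hB.mem n
    obtain ⟨S4, h8, hS4, h9⟩ := mem_nhds_iff.1 hBn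
    let S : Set G := V ∩ (S1 ∩ (S2 ∩ (S3 ∩ S4)))
    have hS : IsOpen S := hV.inter (hS1.inter (hS2.inter (hS3.inter hS4)))
    have h1S : (1 : G) ∈ S := ⟨h1, h2, h5, h6, h9⟩
    refine ⟨⟨S ∩ {g | g⁻¹ ∈ S}, hS.inter (hS.preimage continuous_inv), h1S, by simpa using h1S⟩,
      ?_, ?_, ?_, ?_⟩
    · rintro a ⟨h10, h11⟩
      exact ⟨h11, by simpa using h10⟩
    · rintro a ⟨h10, h11⟩
      exact h10.1
    · intro a ha b hb c hc
      exact h4 (mk_mem_prod ha.1.2.1 (h7 (mk_mem_prod hb.1.2.2.1 hc.1.2.2.2.1)))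
    · rintro a ⟨h10, h11⟩
      exact h8 h10.2.2.2.2
  choose N h1 h2 h3 h4 using hstep
  let V : ℕ → {V : Set G // IsOpen V ∧ 1 ∈ V} := fun n =>
    Nat.rec ⟨univ, isOpen_univ, trivial⟩ (fun n V => N n V) n
  have hV : ∀ n, V (n + 1) = N n (V n) := fun n => rfl
  refine ⟨fun n => (V n).1, fun n => (V n).2.1, fun n => (V n).2.2, ?_, ?_, ?_, ?_⟩
  · intro n
    cases n with
    | zero => intro a _; trivial
    | succ n => exact h1 n (V n)
  · intro n
    exact h2 n (V n)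
  · intro n
    exact h3 n (V n)
  · intro O hO h1O
    obtain ⟨n, -, hn⟩ := hB.1.mem_iff.1 (hO.mem_nhds h1O)
    exact ⟨n + 1, (h4 n (V n)).trans hn⟩

end nbh

variable {G : Type*} [TopologicalSpace G] [Group G] [IsTopologicalGroup G] [PolishSpace G]
  [MeasurableSpace G] [BorelSpace G]
variable {X : Type*} [m : MeasurableSpace X] [MulAction G X] [MeasurableSMul₂ G X]

/-- right Cauchy sequences in the stabilisers converge -/
def CStab (G : Type*) [TopologicalSpace G] [Group G] (X : Type*) [MulAction G X] : Prop :=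
  ∀ x : X, ∀ s : ℕ → G, (∀ n, s n • x = x) →
    (∀ O : Set G, IsOpen O → 1 ∈ O → ∃ N, ∀ n ≥ N, ∀ k ≥ N, s n * (s k)⁻¹ ∈ O) →
    ∃ g, Tendsto s atTop (𝓝 g)

theorem reflect [StandardBorelSpace X] (hst : CStab G X) {V : ℕ → Set G}
    (hVo : ∀ n, IsOpen (V n)) (hVi : ∀ n, ∀ a ∈ V n, a⁻¹ ∈ V n)
    (hVm : ∀ n, V (n + 1) ⊆ V n)
    (hV3 : ∀ n, ∀ a ∈ V (n + 1), ∀ b ∈ V (n + 1), ∀ c ∈ V (n + 1), a * b * c ∈ V n)
    (hVb : ∀ O : Set G, IsOpen O → 1 ∈ O → ∃ n, V n ⊆ O) :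
    ∃ Q : ℕ → Set (X × X), (∀ k, MeasurableSet (Q k)) ∧
      (∀ k (x : X), ∀ v ∈ V k, (x, v • x) ∈ Q k) ∧
      ∀ (x z : X) (h : ℕ → G), (∀ k, ∀ n ≥ k, ∀ j ≥ k, h n * (h j)⁻¹ ∈ V k) →
        (∀ k, (x, h k • z) ∈ Q k) → ∃ g, Tendsto h atTop (𝓝 g) := by
  obtain ⟨t, ht, hp⟩ := StandardBorelSpace.polish (α := X)
  have hVa : ∀ n k, n ≤ k → V k ⊆ V n := by
    intro n k hk
    induction k, hk using Nat.le_induction with
    | base => exact Subset.refl _
    | succ k _ ih => exact (hVm k).trans ih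
  let D : Set (X × X × (ℕ → G)) := {w | (∀ k, ∀ n ≥ k, ∀ j ≥ k, w.2.2 n * (w.2.2 j)⁻¹ ∈ V k) ∧
    ¬ ∃ g, Tendsto w.2.2 atTop (𝓝 g)}
  have hD : MeasurableSet D := by
    have h1 : MeasurableSet {w : X × X × (ℕ → G) |
        ∀ k, ∀ n ≥ k, ∀ j ≥ k, w.2.2 n * (w.2.2 j)⁻¹ ∈ V k} := by
      refine measurableSet_setOf.2 (Measurable.forall fun k => Measurable.forall fun n =>
        Measurable.imp measurable_const (Measurable.forall fun j =>
          Measurable.imp measurable_const ?_))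
      have h2 : Measurable fun w : X × X × (ℕ → G) => w.2.2 n * (w.2.2 j)⁻¹ := by fun_prop
      exact ((hVo k).measurableSet.preimage h2).mem
    have h3 : MeasurableSet {w : X × X × (ℕ → G) |
        ∃ g, Tendsto (fun n => w.2.2 n) atTop (𝓝 g)} := by
      refine measurableSet_exists_tendsto (f := fun n (w : X × X × (ℕ → G)) => w.2.2 n) ?_
      intro n
      fun_prop
    exact h1.inter h3.compl
  have hmk : ∀ k, Measurable fun w : X × X × (ℕ → G) => (w.1, w.2.2 k • w.2.1) := by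
    intro k
    have h1 : Measurable fun w : X × X × (ℕ → G) => w.2.2 k := by fun_prop
    exact measurable_fst.prodMk (h1.smul (measurable_fst.comp measurable_snd))
  let R : ℕ → Set (X × X) := fun k => {q | ∃ v ∈ V k, v • q.1 = q.2}
  have hR : ∀ k, AnalyticSet (R k) := by
    intro k
    have h1 : MeasurableSet {q : G × (X × X) | q.1 ∈ V k ∧ q.1 • q.2.1 = q.2.2} := by
      refine MeasurableSet.inter ((hVo k).measurableSet.preimage measurable_fst) ?_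
      apply measurableSet_eq_fun
      · exact measurable_fst.smul (measurable_fst.comp measurable_snd)
      · exact measurable_snd.comp measurable_snd
    have h2 : R k = Prod.snd '' {q : G × (X × X) | q.1 ∈ V k ∧ q.1 • q.2.1 = q.2.2} := by
      ext p
      constructor
      · rintro ⟨g, hg, hg2⟩
        exact ⟨(g, p), ⟨hg, hg2⟩, rfl⟩
      · rintro ⟨⟨g, p'⟩, ⟨hg, hg2⟩, rfl⟩
        exact ⟨g, hg, hg2⟩
    rw [h2]
    exact h1.analyticSet_image measurable_snd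
  have hA : ∀ k, AnalyticSet {w | w ∈ D ∧ (w.1, w.2.2 k • w.2.1) ∈ R k} := by
    intro k
    have h1 : MeasurableSet {q : G × (X × X × (ℕ → G)) | q.1 ∈ V k ∧ q.2 ∈ D ∧
        q.1 • q.2.1 = q.2.2.2 k • q.2.2.1} := by
      refine MeasurableSet.inter ((hVo k).measurableSet.preimage measurable_fst)
        (MeasurableSet.inter (hD.preimage measurable_snd) ?_)
      apply measurableSet_eq_fun
      · exact measurable_fst.smul (measurable_fst.comp measurable_snd)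
      · exact (measurable_snd.comp (hmk k)).comp measurable_snd
    have h2 : {w | w ∈ D ∧ (w.1, w.2.2 k • w.2.1) ∈ R k} = Prod.snd ''
        {q : G × (X × X × (ℕ → G)) | q.1 ∈ V k ∧ q.2 ∈ D ∧
          q.1 • q.2.1 = q.2.2.2 k • q.2.2.1} := by
      ext p
      constructor
      · rintro ⟨hp, g, hg, hg2⟩
        exact ⟨(g, p), ⟨hg, hp, hg2⟩, rfl⟩
      · rintro ⟨⟨g, p'⟩, ⟨hg, hp, hg2⟩, rfl⟩
        exact ⟨hp, g, hg, hg2⟩
    rw [h2]
    exact h1.analyticSet_image measurable_snd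
  obtain ⟨C, hC1, hC2, hC3⟩ := Pool.Agent.H579R3.SV.novikov' hA (by
    rw [eq_empty_iff_forall_notMem]
    rintro ⟨x, z, h⟩ hw
    rw [mem_iInter] at hw
    have hwD : (x, z, h) ∈ D := (hw 0).1
    have hv : ∀ k, ∃ v ∈ V k, v • x = h k • z := fun k => (hw k).2
    choose v hv1 hv2 using hv
    have hzx : z = ((h 0)⁻¹ * v 0) • x := by
      rw [mul_smul, hv2 0, inv_smul_smul]
    set g := (h 0)⁻¹ * v 0 with hg
    obtain ⟨s, hs⟩ := hst x (fun k => (v k)⁻¹ * h k * g) (fun k => by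
      rw [mul_smul, mul_smul, ← hzx, ← hv2 k, inv_smul_smul]) (by
      intro O hO h1O
      obtain ⟨n, hn⟩ := hVb O hO h1O
      refine ⟨n + 1, fun i hi j hj => hn ?_⟩
      have h1 := hV3 n _ (hVa _ _ hi (hVi i _ (hv1 i))) _ (hwD.1 (n + 1) i hi j hj) _
        (hVa _ _ hj (hv1 j))
      have h2 : (v i)⁻¹ * h i * g * ((v j)⁻¹ * h j * g)⁻¹ =
          (v i)⁻¹ * (h i * (h j)⁻¹) * v j := by group
      rw [h2]
      exact h1)
    apply hwD.2
    have hv0 : Tendsto v atTop (𝓝 1) := by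
      rw [tendsto_nhds]
      intro O hO h1O
      obtain ⟨n, hn⟩ := hVb O hO h1O
      filter_upwards [eventually_ge_atTop n] with k hk
      exact hn (hVa _ _ hk (hv1 k))
    refine ⟨1 * s * g⁻¹, ((hv0.mul hs).mul_const g⁻¹).congr ?_⟩
    intro k
    group)
  have hsep : ∀ k, ∃ Q : Set (X × X), MeasurableSet Q ∧ R k ⊆ Q ∧
      Disjoint ((fun w : X × X × (ℕ → G) => (w.1, w.2.2 k • w.2.1)) '' (D \ C k)) Q := by
    intro k
    have h1 : AnalyticSet ((fun w : X × X × (ℕ → G) => (w.1, w.2.2 k • w.2.1)) '' (D \ C k)) :=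
      (hD.diff (hC1 k)).analyticSet_image (hmk k)
    obtain ⟨Q, h2, h3, h4⟩ := (hR k).measurablySeparable h1 (by
      rw [disjoint_left]
      rintro _ hq ⟨w, ⟨hw1, hw2⟩, rfl⟩
      exact hw2 (hC2 k ⟨hw1, hq⟩))
    exact ⟨Q, h4, h2, h3⟩
  choose Q hQ1 hQ2 hQ3 using hsep
  refine ⟨Q, hQ1, fun k x v hv => hQ2 k ⟨v, hv, rfl⟩, ?_⟩
  intro x z h hh hQ
  by_contra hc
  have hwD : (x, z, h) ∈ D := ⟨hh, hc⟩
  have : (x, z, h) ∈ ⋂ n, C n := by
    refine mem_iInter.2 fun k => ?_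
    by_contra hk
    exact disjoint_left.1 (hQ3 k) ⟨(x, z, h), ⟨hwD, hk⟩, rfl⟩ (hQ k)
  rw [hC3] at this
  exact this

end Pool.Agent.H657.CL
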