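import Pool.Agent.H657.CL.Main
import Pool.Agent.H657.CL.Orb

set_option autoImplicit false
set_option linter.unusedSectionVars false
set_option linter.deprecated false
set_option linter.style.haveILetI false

/-!
The dichotomy relative to a closed normal subgroup whose orbit equivalence relation is Borel.
-/

namespace Pool.Agent.H657.CL

open Set Filter Topology MeasureTheory TopologicalSpace

variable {G : Type*} [TopologicalSpace G] [Group G] [IsTopologicalGroup G] [PolishSpace G]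
  [MeasurableSpace G] [BorelSpace G]
variable {X : Type*} [m : MeasurableSpace X] [MulAction G X] [MeasurableSMul₂ G X]

/-- `g` is small modulo `N` -/
def Sm (N : Subgroup G) (V : Set G) : Set G := {g | ∃ v ∈ V, v⁻¹ * g ∈ N}

theorem Sm_open (N : Subgroup G) {V : Set G} (hV : IsOpen V) : IsOpen (Sm N V) := by
  have : Sm N V = ⋃ n ∈ N, (fun g => g * n) ⁻¹' V := by
    ext g
    simp only [mem_iUnion, mem_preimage]
    constructor
    · rintro ⟨v, hv, hn⟩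
      refine ⟨(v⁻¹ * g)⁻¹, N.inv_mem hn, ?_⟩
      simpa using hv
    · rintro ⟨n, hn, hv⟩
      refine ⟨g * n, hv, ?_⟩
      simpa [mul_assoc] using N.inv_mem hn
  rw [this]
  exact isOpen_biUnion fun n _ => hV.preimage (by fun_prop)

/-- the sequence `h` converges to `g` modulo `N` -/
def Cv (N : Subgroup G) (V : ℕ → Set G) (h : ℕ → G) (g : G) : Prop :=
  ∀ k, ∃ m, ∀ n ≥ m, h n * g⁻¹ ∈ Sm N (V k)

theorem Cv_meas (N : Subgroup G) {V : ℕ → Set G} (hVo : ∀ n, IsOpen (V n)) :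
    MeasurableSet {q : (ℕ → G) × G | Cv N V q.1 q.2} := by
  refine measurableSet_setOf.2 (Measurable.forall fun k => Measurable.exists fun m =>
    Measurable.forall fun n => Measurable.imp measurable_const ?_)
  have h2 : Measurable fun w : (ℕ → G) × G => w.1 n * w.2⁻¹ := by fun_prop
  exact ((Sm_open N (hVo k)).measurableSet.preimage h2).mem

section norm

variable (N : Subgroup G) [hNn : N.Normal] {V : ℕ → Set G}
  (hVo : ∀ n, IsOpen (V n)) (hVi : ∀ n, ∀ a ∈ V n, a⁻¹ ∈ V n)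
  (hVm : ∀ n, V (n + 1) ⊆ V n)
  (hV1 : ∀ n, 1 ∈ V n)
  (hV3 : ∀ n, ∀ a ∈ V (n + 1), ∀ b ∈ V (n + 1), ∀ c ∈ V (n + 1), a * b * c ∈ V n)
  (hVb : ∀ O : Set G, IsOpen O → 1 ∈ O → ∃ n, V n ⊆ O)

include hNn in
theorem Sm_mul {a b : G} {W W' : Set G} (ha : a ∈ Sm N W) (hb : b ∈ Sm N W') :
    ∃ v ∈ W, ∃ w ∈ W', (v * w)⁻¹ * (a * b) ∈ N := by
  obtain ⟨v, hv, hn⟩ := ha
  obtain ⟨w, hw, hk⟩ := hb
  refine ⟨v, hv, w, hw, ?_⟩
  have h1 : (v * w)⁻¹ * (a * b) = (w⁻¹ * (v⁻¹ * a) * w) * (w⁻¹ * b) := by group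
  rw [h1]
  refine N.mul_mem ?_ hk
  have := hNn.conj_mem _ hn w⁻¹
  simpa using this

include hNn in
theorem Sm_inv {a : G} {W : Set G} (hW : ∀ a ∈ W, a⁻¹ ∈ W) (ha : a ∈ Sm N W) :
    a⁻¹ ∈ Sm N W := by
  obtain ⟨v, hv, hn⟩ := ha
  refine ⟨v⁻¹, hW v hv, ?_⟩
  have h1 : v⁻¹⁻¹ * a⁻¹ = v * (v⁻¹ * a)⁻¹ * v⁻¹ := by group
  rw [h1]
  exact hNn.conj_mem _ (N.inv_mem hn) v

include hNn hVm hV1 hV3 in
theorem Sm_mul' {a b : G} {n : ℕ} (ha : a ∈ Sm N (V (n + 1))) (hb : b ∈ Sm N (V (n + 1))) :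
    a * b ∈ Sm N (V n) := by
  obtain ⟨v, hv, w, hw, h⟩ := Sm_mul N ha hb
  refine ⟨v * w, ?_, h⟩
  have := hV3 n v hv w hw 1 (hV1 _)
  simpa using this

include hVi hVb in
theorem mem_of_Sm (hN : IsClosed (N : Set G)) {a : G} (ha : ∀ n, a ∈ Sm N (V n)) : a ∈ N := by
  by_contra hc
  have hO : IsOpen {b : G | b * a ∈ (N : Set G)ᶜ} :=
    hN.isOpen_compl.preimage (by fun_prop)
  obtain ⟨n, hn⟩ := hVb _ hO (by simpa using hc)
  obtain ⟨v, hv, h⟩ := ha n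
  exact hn (hVi n v hv) h

include hNn hVi hVm hV1 hV3 hVb in
theorem Cv_unique (hN : IsClosed (N : Set G)) {h : ℕ → G} {g g' : G} (h1 : Cv N V h g)
    (h2 : Cv N V h g') : g' * g⁻¹ ∈ N := by
  refine mem_of_Sm N hVi hVb hN fun n => ?_
  obtain ⟨m1, hm1⟩ := h1 (n + 1)
  obtain ⟨m2, hm2⟩ := h2 (n + 1)
  have h3 := Sm_mul' N hVm hV1 hV3 (Sm_inv N (hVi _) (hm2 _ (le_max_right m1 m2)))
    (hm1 _ (le_max_left m1 m2))
  have h4 : (h (max m1 m2) * g'⁻¹)⁻¹ * (h (max m1 m2) * g⁻¹) = g' * g⁻¹ := by group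
  rw [h4] at h3
  exact h3

include hNn hVo hVi hVm hV1 hV3 hVb in
theorem conv_meas (hN : IsClosed (N : Set G)) :
    MeasurableSet {h : ℕ → G | ∃ g, Cv N V h g} := by
  obtain ⟨f, hf, hf1, hf2⟩ := exists_selector N hN
  have h1 : {h : ℕ → G | ∃ g, Cv N V h g} =
      Prod.fst '' ({q : (ℕ → G) × G | Cv N V q.1 q.2} ∩ {q | f q.2 = q.2}) := by
    ext h
    constructor
    · rintro ⟨g, hg⟩
      refine ⟨(h, f g), ⟨?_, ?_⟩, rfl⟩
      · intro k
        obtain ⟨m, hm⟩ := hg k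
        refine ⟨m, fun n hn => ?_⟩
        obtain ⟨v, hv, h2⟩ := hm n hn
        refine ⟨v, hv, ?_⟩
        have h3 : v⁻¹ * (h n * (f g)⁻¹) = (v⁻¹ * (h n * g⁻¹)) * (g * (g⁻¹ * f g)⁻¹ * g⁻¹) := by
          group
        show v⁻¹ * (h n * (f g)⁻¹) ∈ N
        rw [h3]
        exact N.mul_mem h2 (hNn.conj_mem _ (N.inv_mem (hf1 g)) g)
      · show f (f g) = f g
        have := hf2 g _ (hf1 g)
        rwa [mul_inv_cancel_left] at this
    · rintro ⟨⟨h', g⟩, ⟨h2, -⟩, rfl⟩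
      exact ⟨g, h2⟩
  rw [h1]
  refine MeasurableSet.image_of_measurable_injOn ?_ measurable_fst ?_
  · exact (Cv_meas N hVo).inter (measurableSet_eq_fun (hf.comp measurable_snd) measurable_snd)
  · rintro ⟨h, g⟩ ⟨h2, h3⟩ ⟨h', g'⟩ ⟨h4, h5⟩ he
    have he' : h = h' := he
    subst he'
    have h6 := Cv_unique N hVi hVm hV1 hV3 hVb hN h2 h4
    have h7 : g⁻¹ * g' ∈ N := by
      have := hNn.conj_mem _ h6 g⁻¹
      have h8 : g⁻¹ * (g' * g⁻¹) * g⁻¹⁻¹ = g⁻¹ * g' := by group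
      rwa [h8] at this
    have h9 := hf2 g _ h7
    rw [mul_inv_cancel_left] at h9
    have h10 : f g = g := h3
    have h11 : f g' = g' := h5
    rw [h10, h11] at h9
    rw [h9]

end norm

theorem ana_image {Y Z : Type*} [TopologicalSpace Y] [PolishSpace Y] [MeasurableSpace Y]
    [BorelSpace Y] [TopologicalSpace Z] [PolishSpace Z] [MeasurableSpace Z] [BorelSpace Z]
    {f : Y → Z} (hf : Measurable f) {D : Set Y} (hD : AnalyticSet D) : AnalyticSet (f '' D) := by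
  have h1 : f '' D = Prod.snd '' ({q : Y × Z | f q.1 = q.2} ∩ Prod.fst ⁻¹' D) := by
    ext z
    constructor
    · rintro ⟨y, hy, rfl⟩
      exact ⟨(y, f y), ⟨rfl, hy⟩, rfl⟩
    · rintro ⟨⟨y, z⟩, ⟨h1, h2⟩, rfl⟩
      exact ⟨y, h2, h1⟩
  rw [h1]
  refine (Pool.Agent.H579R3.SV.ana_inter ?_ (hD.preimage continuous_fst)).image_of_continuous
    continuous_snd
  exact (measurableSet_eq_fun (hf.comp measurable_fst) measurable_snd).analyticSet

/-- right Cauchy sequences in the stabilisers converge modulo `N` to elements of the stabiliser -/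
def CStabN (N : Subgroup G) (X : Type*) [MulAction G X] : Prop :=
  ∀ x : X, ∀ s : ℕ → G, (∀ n, s n • x = x) →
    (∀ O : Set G, IsOpen O → 1 ∈ O → ∃ j, ∀ n ≥ j, ∀ k ≥ j, s n * (s k)⁻¹ ∈ O) →
    ∃ g, g • x = x ∧ ∀ O : Set G, IsOpen O → 1 ∈ O → ∃ j, ∀ n ≥ j, s n * g⁻¹ ∈ Sm N O

theorem reflectN [StandardBorelSpace X] (N : Subgroup G) [hNn : N.Normal]
    (hN : IsClosed (N : Set G)) (hB : MeasurableSet {q : X × X | ∃ n ∈ N, n • q.1 = q.2})
    (hst : CStabN N X) {V : ℕ → Set G}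
    (hVo : ∀ n, IsOpen (V n)) (hV1 : ∀ n, 1 ∈ V n) (hVi : ∀ n, ∀ a ∈ V n, a⁻¹ ∈ V n)
    (hVm : ∀ n, V (n + 1) ⊆ V n)
    (hV3 : ∀ n, ∀ a ∈ V (n + 1), ∀ b ∈ V (n + 1), ∀ c ∈ V (n + 1), a * b * c ∈ V n)
    (hVb : ∀ O : Set G, IsOpen O → 1 ∈ O → ∃ n, V n ⊆ O) :
    ∃ Q : ℕ → Set (X × X), (∀ k, MeasurableSet (Q k)) ∧
      (∀ k (x : X), ∀ v ∈ V k, (x, v • x) ∈ Q k) ∧
      ∀ (x z : X) (h : ℕ → G), (∀ k, ∀ n ≥ k, ∀ j ≥ k, h n * (h j)⁻¹ ∈ V k) →
        (∀ k, (x, h k • z) ∈ Q k) → ∃ g : G, g • z = x := by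
  obtain ⟨t, ht, hp⟩ := StandardBorelSpace.polish (α := X)
  have hVa : ∀ n k, n ≤ k → V k ⊆ V n := by
    intro n k hk
    induction k, hk using Nat.le_induction with
    | base => exact Subset.refl _
    | succ k _ ih => exact (hVm k).trans ih
  -- the set of all bad configurations
  let D : Set (X × X × (ℕ → G)) := {w | (∀ k, ∀ n ≥ k, ∀ j ≥ k, w.2.2 n * (w.2.2 j)⁻¹ ∈ V k) ∧
    ((¬ ∃ g, Cv N V w.2.2 g) ∨
      ∃ g, Cv N V w.2.2 g ∧ ¬ ∃ n ∈ N, n • w.1 = g • w.2.1)}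
  have hD : AnalyticSet D := by
    have h1 : MeasurableSet {w : X × X × (ℕ → G) |
        ∀ k, ∀ n ≥ k, ∀ j ≥ k, w.2.2 n * (w.2.2 j)⁻¹ ∈ V k} := by
      refine measurableSet_setOf.2 (Measurable.forall fun k => Measurable.forall fun n =>
        Measurable.imp measurable_const (Measurable.forall fun j =>
          Measurable.imp measurable_const ?_))
      have h2 : Measurable fun w : X × X × (ℕ → G) => w.2.2 n * (w.2.2 j)⁻¹ := by fun_prop
      exact ((hVo k).measurableSet.preimage h2).mem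
    have hs : Measurable fun w : X × X × (ℕ → G) => w.2.2 := by fun_prop
    have h3 : MeasurableSet {w : X × X × (ℕ → G) | ¬ ∃ g, Cv N V w.2.2 g} :=
      ((conv_meas N hVo hVi hVm hV1 hV3 hVb hN).preimage hs).compl
    have h4 : MeasurableSet {q : G × (X × X × (ℕ → G)) | Cv N V q.2.2.2 q.1 ∧
        ¬ ∃ n ∈ N, n • q.2.1 = q.1 • q.2.2.1} := by
      refine MeasurableSet.inter ?_ (MeasurableSet.compl ?_)
      · have h5 : Measurable fun q : G × (X × X × (ℕ → G)) => (q.2.2.2, q.1) := by fun_prop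
        exact (Cv_meas N hVo).preimage h5
      · have h5 : Measurable fun q : G × (X × X × (ℕ → G)) => (q.2.1, q.1 • q.2.2.1) := by
          refine Measurable.prodMk (by fun_prop) ?_
          exact measurable_fst.smul (by fun_prop)
        exact hB.preimage h5
    have h6 : AnalyticSet {w : X × X × (ℕ → G) | ∃ g, Cv N V w.2.2 g ∧
        ¬ ∃ n ∈ N, n • w.1 = g • w.2.1} := by
      have h7 : {w : X × X × (ℕ → G) | ∃ g, Cv N V w.2.2 g ∧
          ¬ ∃ n ∈ N, n • w.1 = g • w.2.1} = Prod.snd '' {q : G × (X × X × (ℕ → G)) |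
            Cv N V q.2.2.2 q.1 ∧ ¬ ∃ n ∈ N, n • q.2.1 = q.1 • q.2.2.1} := by
        ext w
        constructor
        · rintro ⟨g, hg⟩
          exact ⟨(g, w), hg, rfl⟩
        · rintro ⟨⟨g, w'⟩, hg, rfl⟩
          exact ⟨g, hg⟩
      rw [h7]
      exact h4.analyticSet_image measurable_snd
    have h8 : D = {w : X × X × (ℕ → G) |
        ∀ k, ∀ n ≥ k, ∀ j ≥ k, w.2.2 n * (w.2.2 j)⁻¹ ∈ V k} ∩
        ({w : X × X × (ℕ → G) | ¬ ∃ g, Cv N V w.2.2 g} ∪
        {w : X × X × (ℕ → G) | ∃ g, Cv N V w.2.2 g ∧ ¬ ∃ n ∈ N, n • w.1 = g • w.2.1}) := rfl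
    rw [h8]
    refine Pool.Agent.H579R3.SV.ana_inter h1.analyticSet ?_
    rw [union_eq_iUnion]
    refine AnalyticSet.iUnion fun b => ?_
    cases b
    · exact h6
    · exact h3.analyticSet
  have hmk : ∀ k, Measurable fun w : X × X × (ℕ → G) => (w.1, w.2.2 k • w.2.1) := by
    intro k
    have h1 : Measurable fun w : X × X × (ℕ → G) => w.2.2 k := by fun_prop
    exact measurable_fst.prodMk (h1.smul (measurable_fst.comp measurable_snd))
  let R : ℕ → Set (X × X) := fun k => {q | ∃ v ∈ V k, v • q.1 = q.2}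
  have hR : ∀ k, AnalyticSet (R k) := by
    intro k
    have h1 : MeasurableSet {q : G × (X × X) | q.1 ∈ V k ∧ q.1 • q.2.1 = q.2.2} := by
      refine MeasurableSet.inter ((hVo k).measurableSet.preimage measurable_fst) ?_
      apply measurableSet_eq_fun
      · exact measurable_fst.smul (measurable_fst.comp measurable_snd)
      · exact measurable_snd.comp measurable_snd
    have h2 : R k = Prod.snd '' {q : G × (X × X) | q.1 ∈ V k ∧ q.1 • q.2.1 = q.2.2} := by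
      ext p
      constructor
      · rintro ⟨g, hg, hg2⟩
        exact ⟨(g, p), ⟨hg, hg2⟩, rfl⟩
      · rintro ⟨⟨g, p'⟩, ⟨hg, hg2⟩, rfl⟩
        exact ⟨g, hg, hg2⟩
    rw [h2]
    exact h1.analyticSet_image measurable_snd
  have hA : ∀ k, AnalyticSet (D ∩ {w | (w.1, w.2.2 k • w.2.1) ∈ R k}) := by
    intro k
    refine Pool.Agent.H579R3.SV.ana_inter hD ?_
    have h1 : MeasurableSet {q : G × (X × X × (ℕ → G)) | q.1 ∈ V k ∧
        q.1 • q.2.1 = q.2.2.2 k • q.2.2.1} := by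
      refine MeasurableSet.inter ((hVo k).measurableSet.preimage measurable_fst) ?_
      apply measurableSet_eq_fun
      · exact measurable_fst.smul (measurable_fst.comp measurable_snd)
      · exact (measurable_snd.comp (hmk k)).comp measurable_snd
    have h2 : {w : X × X × (ℕ → G) | (w.1, w.2.2 k • w.2.1) ∈ R k} = Prod.snd ''
        {q : G × (X × X × (ℕ → G)) | q.1 ∈ V k ∧
          q.1 • q.2.1 = q.2.2.2 k • q.2.2.1} := by
      ext p
      constructor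
      · rintro ⟨g, hg, hg2⟩
        exact ⟨(g, p), ⟨hg, hg2⟩, rfl⟩
      · rintro ⟨⟨g, p'⟩, ⟨hg, hg2⟩, rfl⟩
        exact ⟨g, hg, hg2⟩
    rw [h2]
    exact h1.analyticSet_image measurable_snd
  obtain ⟨C, hC1, hC2, hC3⟩ := Pool.Agent.H579R3.SV.novikov' hA (by
    rw [eq_empty_iff_forall_notMem]
    rintro ⟨x, z, h⟩ hw
    rw [mem_iInter] at hw
    have hwD : (x, z, h) ∈ D := (hw 0).1
    have hv : ∀ k, ∃ v ∈ V k, v • x = h k • z := fun k => (hw k).2
    choose v hv1 hv2 using hv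
    have hzx : z = ((h 0)⁻¹ * v 0) • x := by
      rw [mul_smul, hv2 0, inv_smul_smul]
    set g := (h 0)⁻¹ * v 0 with hg
    obtain ⟨s, hsx, hs⟩ := hst x (fun k => (v k)⁻¹ * h k * g) (fun k => by
      rw [mul_smul, mul_smul, ← hzx, ← hv2 k, inv_smul_smul]) (by
      intro O hO h1O
      obtain ⟨n, hn⟩ := hVb O hO h1O
      refine ⟨n + 1, fun i hi j hj => hn ?_⟩
      have h1 := hV3 n _ (hVa _ _ hi (hVi i _ (hv1 i))) _ (hwD.1 (n + 1) i hi j hj) _
        (hVa _ _ hj (hv1 j))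
      have h2 : (v i)⁻¹ * h i * g * ((v j)⁻¹ * h j * g)⁻¹ =
          (v i)⁻¹ * (h i * (h j)⁻¹) * v j := by group
      rw [h2]
      exact h1)
    have hcv : Cv N V h (s * g⁻¹) := by
      intro k
      obtain ⟨j, hj⟩ := hs (V (k + 1)) (hVo _) (hV1 _)
      refine ⟨max j (k + 1), fun n hn => ?_⟩
      have h1 := hj n (le_trans (le_max_left _ _) hn)
      have h2 : v n ∈ Sm N (V (k + 1)) :=
        ⟨v n, hVa _ _ (le_trans (le_max_right _ _) hn) (hv1 n), by simp [N.one_mem]⟩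
      have h3 := Sm_mul' N hVm hV1 hV3 h2 h1
      have h4 : v n * ((v n)⁻¹ * h n * g * s⁻¹) = h n * (s * g⁻¹)⁻¹ := by group
      rw [h4] at h3
      exact h3
    rcases hwD.2 with h1 | ⟨g', hg', hne⟩
    · exact h1 ⟨_, hcv⟩
    · have h2 := Cv_unique N hVi hVm hV1 hV3 hVb hN hcv hg'
      apply hne
      refine ⟨_, h2, ?_⟩
      show (g' * (s * g⁻¹)⁻¹) • x = g' • z
      rw [mul_smul, mul_inv_rev, inv_inv, mul_smul]
      have h3 : s⁻¹ • x = x := by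
        rw [inv_smul_eq_iff]
        exact hsx.symm
      rw [h3, hzx])
  have hsep : ∀ k, ∃ Q : Set (X × X), MeasurableSet Q ∧ R k ⊆ Q ∧
      Disjoint ((fun w : X × X × (ℕ → G) => (w.1, w.2.2 k • w.2.1)) '' (D ∩ (C k)ᶜ)) Q := by
    intro k
    have h1 : AnalyticSet ((fun w : X × X × (ℕ → G) => (w.1, w.2.2 k • w.2.1)) ''
        (D ∩ (C k)ᶜ)) :=
      ana_image (hmk k) (Pool.Agent.H579R3.SV.ana_inter hD (hC1 k).compl.analyticSet)
    obtain ⟨Q, h2, h3, h4⟩ := (hR k).measurablySeparable h1 (by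
      rw [disjoint_left]
      rintro _ hq ⟨w, ⟨hw1, hw2⟩, rfl⟩
      exact hw2 (hC2 k ⟨hw1, hq⟩))
    exact ⟨Q, h4, h2, h3⟩
  choose Q hQ1 hQ2 hQ3 using hsep
  refine ⟨Q, hQ1, fun k x v hv => hQ2 k ⟨v, hv, rfl⟩, ?_⟩
  intro x z h hh hQ
  by_contra hc
  push Not at hc
  have hwD : (x, z, h) ∈ D := by
    refine ⟨hh, ?_⟩
    by_cases h1 : ∃ g, Cv N V h g
    · obtain ⟨g, hg⟩ := h1
      refine Or.inr ⟨g, hg, ?_⟩
      rintro ⟨n, -, h2⟩
      have h2' : n • x = g • z := h2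
      refine hc (n⁻¹ * g) ?_
      rw [mul_smul, ← h2', inv_smul_smul]
    · exact Or.inl h1
  have : (x, z, h) ∈ ⋂ n, C n := by
    refine mem_iInter.2 fun k => ?_
    by_contra hk
    exact disjoint_left.1 (hQ3 k) ⟨(x, z, h), ⟨hwD, hk⟩, rfl⟩ (hQ k)
  rw [hC3] at this
  exact this

end Pool.Agent.H657.CL
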