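import Mathlib

set_option autoImplicit false
set_option linter.unusedSectionVars false
set_option linter.deprecated false

/-!
Vaught transforms for Borel actions of Polish groups.
-/

namespace Pool.Agent.H657.CL

open Set Filter Topology MeasureTheory TopologicalSpace

section top

variable {U : Type*} [TopologicalSpace U]

theorem not_meagre_open [BaireSpace U] {O : Set U} (hO : IsOpen O) (hn : O.Nonempty) :
    ¬ IsMeagre O := by
  intro hm
  have h2 : Dense Oᶜ := dense_of_mem_residual hm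
  obtain ⟨x, hx1, hx2⟩ := h2.inter_open_nonempty _ hO hn
  exact hx2 hx1

/-- a nonmeagre set with the Baire property is comeagre in a nonempty open set -/
theorem exists_open_of_not_meagre [MeasurableSpace U] [BorelSpace U] {D O : Set U}
    (hD : MeasurableSet D) (hO : IsOpen O) (h : ¬ IsMeagre {g | g ∈ O ∧ g ∈ D}) :
    ∃ W : Set U, IsOpen W ∧ W.Nonempty ∧ W ⊆ O ∧ IsMeagre {g | g ∈ W ∧ g ∉ D} := by
  obtain ⟨u, hu, he⟩ := hD.residualEq_isOpen
  have h1 : IsMeagre {x | ¬ (D x = u x)} := by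
    show {x | ¬ (D x = u x)}ᶜ ∈ residual U
    have : {x | ¬ (D x = u x)}ᶜ = {x | D x = u x} := by
      ext x; simp
    rw [this]
    exact he
  refine ⟨O ∩ u, hO.inter hu, ?_, inter_subset_left, h1.mono ?_⟩
  · by_contra hne
    rw [not_nonempty_iff_eq_empty] at hne
    apply h
    refine h1.mono ?_
    rintro x ⟨hxO, hxD⟩ hxe
    have : x ∈ O ∩ u := ⟨hxO, by
      have h3 : D x := hxD
      rw [hxe] at h3
      exact h3⟩
    rw [hne] at this
    exact this
  · rintro x ⟨⟨hxO, hxu⟩, hxD⟩ hxe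
    apply hxD
    show D x
    rw [hxe]
    exact hxu

theorem meagre_iff_basic [BaireSpace U] [MeasurableSpace U] [BorelSpace U] (V : ℕ → Set U)
    (hV : ∀ n, IsOpen (V n))
    (hb : ∀ (W : Set U), IsOpen W → ∀ y ∈ W, ∃ n, y ∈ V n ∧ V n ⊆ W)
    (D O : Set U) (hD : MeasurableSet D) (hO : IsOpen O) :
    IsMeagre (O ∩ Dᶜ) ↔ ∀ n, (V n).Nonempty → V n ⊆ O → ¬ IsMeagre (V n ∩ D) := by
  constructor
  · intro h n hn hnO hm
    refine not_meagre_open (hV n) hn ((h.union hm).mono ?_)
    intro x hx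
    by_cases hxD : x ∈ D
    · exact Or.inr ⟨hx, hxD⟩
    · exact Or.inl ⟨hnO hx, hxD⟩
  · intro h
    by_contra hm
    obtain ⟨W, hW, ⟨y, hy⟩, hWO, hWD⟩ := exists_open_of_not_meagre hD.compl hO hm
    obtain ⟨n, hn1, hn2⟩ := hb W hW y hy
    refine h n ⟨y, hn1⟩ (hn2.trans hWO) (hWD.mono ?_)
    rintro x ⟨hxV, hxD⟩
    exact ⟨hn2 hxV, fun hx => hx hxD⟩

/-- Borel sets are closed under category quantifiers. -/
theorem meagre_measurable [BaireSpace U] [MeasurableSpace U] [BorelSpace U] (V : ℕ → Set U)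
    (hV : ∀ n, IsOpen (V n))
    (hb : ∀ (W : Set U), IsOpen W → ∀ y ∈ W, ∃ n, y ∈ V n ∧ V n ⊆ W)
    {W : Type*} [MeasurableSpace W] (B : Set (W × U)) (hB : MeasurableSet B) :
    ∀ O : Set U, IsOpen O → MeasurableSet {w : W | IsMeagre (O ∩ {g | (w, g) ∈ B})} := by
  classical
  induction B, hB using MeasurableSpace.induction_on_inter generateFrom_prod.symm isPiSystem_prod with
  | empty =>
    intro O hO
    have : {w : W | IsMeagre (O ∩ {g | (w, g) ∈ (∅ : Set (W × U))})} = Set.univ := by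
      rw [Set.eq_univ_iff_forall]
      intro w
      show IsMeagre _
      have : (O ∩ {g | (w, g) ∈ (∅ : Set (W × U))}) = ∅ := by ext x; simp
      rw [this]
      exact IsMeagre.empty
    rw [this]
    exact MeasurableSet.univ
  | basic t ht =>
    obtain ⟨A, hA, D, hD, rfl⟩ := ht
    intro O hO
    by_cases h : IsMeagre (O ∩ D)
    · have : {w : W | IsMeagre (O ∩ {g | (w, g) ∈ A ×ˢ D})} = Set.univ := by
        rw [Set.eq_univ_iff_forall]
        intro w
        refine h.mono ?_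
        rintro x ⟨h1, h2⟩
        exact ⟨h1, h2.2⟩
      rw [this]
      exact MeasurableSet.univ
    · have : {w : W | IsMeagre (O ∩ {g | (w, g) ∈ A ×ˢ D})} = Aᶜ := by
        ext w
        constructor
        · intro hw hwA
          apply h
          have hw' : IsMeagre (O ∩ {g | (w, g) ∈ A ×ˢ D}) := hw
          refine hw'.mono ?_
          rintro x ⟨h1, h2⟩
          exact ⟨h1, hwA, h2⟩
        · intro hwA
          show IsMeagre _
          have : (O ∩ {g | (w, g) ∈ A ×ˢ D}) = ∅ := by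
            ext x
            simp only [Set.mem_inter_iff, Set.mem_setOf_eq, Set.mem_prod, Set.mem_empty_iff_false,
              iff_false]
            rintro ⟨_, h2, _⟩
            exact hwA h2
          rw [this]
          exact IsMeagre.empty
      rw [this]
      exact (show MeasurableSet A from hA).compl
  | compl t htm ih =>
    intro O hO
    have : {w : W | IsMeagre (O ∩ {g | (w, g) ∈ tᶜ})} =
        ⋂ n : ℕ, {w | (V n).Nonempty → V n ⊆ O → ¬ IsMeagre (V n ∩ {g | (w, g) ∈ t})} := by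
      ext w
      have hD : MeasurableSet {g | (w, g) ∈ t} := measurable_prodMk_left htm
      have h := meagre_iff_basic V hV hb {g | (w, g) ∈ t} O hD hO
      simp only [Set.mem_iInter, Set.mem_setOf_eq]
      exact h
    rw [this]
    refine MeasurableSet.iInter fun n => ?_
    by_cases h1 : (V n).Nonempty
    · by_cases h2 : V n ⊆ O
      · have : {w : W | (V n).Nonempty → V n ⊆ O → ¬ IsMeagre (V n ∩ {g | (w, g) ∈ t})} =
            {w | IsMeagre (V n ∩ {g | (w, g) ∈ t})}ᶜ := by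
          ext w
          simp [h1, h2]
        rw [this]
        exact (ih (V n) (hV n)).compl
      · have : {w : W | (V n).Nonempty → V n ⊆ O → ¬ IsMeagre (V n ∩ {g | (w, g) ∈ t})} =
            Set.univ := by
          ext w
          simp [h2]
        rw [this]
        exact MeasurableSet.univ
    · have : {w : W | (V n).Nonempty → V n ⊆ O → ¬ IsMeagre (V n ∩ {g | (w, g) ∈ t})} =
          Set.univ := by
        ext w
        simp [h1]
      rw [this]
      exact MeasurableSet.univ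
  | iUnion f hd hf ih =>
    intro O hO
    have : {w : W | IsMeagre (O ∩ {g | (w, g) ∈ ⋃ i, f i})} =
        ⋂ i, {w | IsMeagre (O ∩ {g | (w, g) ∈ f i})} := by
      ext w
      simp only [Set.mem_iInter, Set.mem_setOf_eq]
      constructor
      · intro h i
        refine h.mono ?_
        rintro x ⟨h1, h2⟩
        exact ⟨h1, Set.mem_iUnion.2 ⟨i, h2⟩⟩
      · intro h
        refine (isMeagre_iUnion h).mono ?_
        rintro x ⟨h1, h2⟩
        obtain ⟨i, hi⟩ := Set.mem_iUnion.1 h2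
        exact Set.mem_iUnion.2 ⟨i, h1, hi⟩
    rw [this]
    exact MeasurableSet.iInter fun i => ih i O hO

end top

section bas

variable (G : Type*) [TopologicalSpace G] [SecondCountableTopology G]

theorem exists_bas : ∃ f : ℕ → Set G, f 0 = univ ∧ (∀ n, IsOpen (f n)) ∧
    ∀ O : Set G, IsOpen O → ∀ g ∈ O, ∃ n, g ∈ f n ∧ f n ⊆ O := by
  have hc : (insert (univ : Set G) (countableBasis G)).Countable :=
    (countable_countableBasis G).insert _
  obtain ⟨f, hf⟩ := hc.exists_eq_range ⟨_, mem_insert _ _⟩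
  refine ⟨fun n => Nat.casesOn n univ f, rfl, ?_, ?_⟩
  · intro n
    cases n with
    | zero => exact isOpen_univ
    | succ n =>
      show IsOpen (f n)
      have : f n ∈ insert (univ : Set G) (countableBasis G) := hf ▸ mem_range_self n
      rcases this with h | h
      · rw [h]; exact isOpen_univ
      · exact isOpen_of_mem_countableBasis h
  · intro O hO g hg
    obtain ⟨W, hW, hgW, hWO⟩ := (isBasis_countableBasis G).exists_subset_of_mem_open hg hO
    have : W ∈ range f := hf ▸ mem_insert_of_mem _ hW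
    obtain ⟨n, rfl⟩ := this
    exact ⟨n + 1, hgW, hWO⟩

/-- a countable basis of the group -/
noncomputable def bas : ℕ → Set G := (exists_bas G).choose

theorem bas_zero : bas G 0 = univ := (exists_bas G).choose_spec.1

theorem bas_open (n : ℕ) : IsOpen (bas G n) := (exists_bas G).choose_spec.2.1 n

variable {G}

theorem bas_basis {O : Set G} (hO : IsOpen O) {g : G} (hg : g ∈ O) :
    ∃ n, g ∈ bas G n ∧ bas G n ⊆ O := (exists_bas G).choose_spec.2.2 O hO g hg

end bas

section vaught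

variable {G : Type*} [TopologicalSpace G] [Group G] [IsTopologicalGroup G] [PolishSpace G]
  [MeasurableSpace G] [BorelSpace G]
variable {X : Type*} [MeasurableSpace X] [MulAction G X] [MeasurableSMul₂ G X]

/-- the Vaught transform -/
def Vt (A : Set X) (U : Set G) : Set X := {x | ¬ IsMeagre {g : G | g ∈ U ∧ g • x ∈ A}}

theorem meas_smul {A : Set X} (hA : MeasurableSet A) (x : X) :
    MeasurableSet {g : G | g • x ∈ A} := by
  have : Measurable fun g : G => g • x := measurable_id.smul_const x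
  exact this hA

theorem Vt_meas {A : Set X} (hA : MeasurableSet A) {U : Set G} (hU : IsOpen U) :
    MeasurableSet (Vt A U) := by
  have hB : MeasurableSet {p : X × G | p.2 • p.1 ∈ A} :=
    (measurable_snd.smul measurable_fst) hA
  have := meagre_measurable (U := G) (bas G) (bas_open G)
    (fun W hW y hy => bas_basis hW hy) _ hB U hU
  exact this.compl

theorem Vt_mono {A B : Set X} {U W : Set G} (hAB : A ⊆ B) (hUW : U ⊆ W) : Vt A U ⊆ Vt B W := by
  intro x hx h
  refine hx (h.mono ?_)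
  rintro g ⟨h1, h2⟩
  exact ⟨hUW h1, hAB h2⟩

theorem Vt_iUnion (A : ℕ → Set X) (U : Set G) {x : X} :
    x ∈ Vt (⋃ n, A n) U ↔ ∃ n, x ∈ Vt (A n) U := by
  constructor
  · intro h
    by_contra hc
    push Not at hc
    apply h
    refine (isMeagre_iUnion (fun n => not_not.1 (hc n))).mono ?_
    rintro g ⟨h1, h2⟩
    obtain ⟨i, hi⟩ := mem_iUnion.1 h2
    exact mem_iUnion.2 ⟨i, h1, hi⟩
  · rintro ⟨n, hn⟩
    exact Vt_mono (subset_iUnion A n) (Subset.refl U) hn

theorem Vt_basic {A : Set X} {U : Set G} {x : X} (P : ℕ → Prop)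
    (hP : ∀ g ∈ U, ∃ k, g ∈ bas G k ∧ P k) (hx : x ∈ Vt A U) :
    ∃ k, P k ∧ x ∈ Vt A (bas G k) := by
  by_contra hc
  push Not at hc
  apply hx
  classical
  have hm : IsMeagre (⋃ k, if P k then {g : G | g ∈ bas G k ∧ g • x ∈ A} else ∅) := by
    refine isMeagre_iUnion (fun n => ?_)
    split_ifs with h
    · exact not_not.1 (hc n h)
    · exact IsMeagre.empty
  refine hm.mono ?_
  · rintro g ⟨h1, h2⟩
    obtain ⟨k, hk, hP⟩ := hP g h1
    refine mem_iUnion.2 ⟨k, ?_⟩
    rw [if_pos hP]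
    exact ⟨hk, h2⟩

theorem Vt_basic' {A : Set X} {U : Set G} (hU : IsOpen U) {x : X} (hx : x ∈ Vt A U) :
    ∃ k, bas G k ⊆ U ∧ x ∈ Vt A (bas G k) :=
  Vt_basic (fun k => bas G k ⊆ U) (fun _ hg => bas_basis hU hg) hx

theorem Vt_smul {A : Set X} {U : Set G} {x : X} (g : G) :
    g • x ∈ Vt A U ↔ x ∈ Vt A ((fun u => u * g⁻¹) ⁻¹' U) := by
  have h : {u : G | u ∈ (fun u => u * g⁻¹) ⁻¹' U ∧ u • x ∈ A} =
      (Homeomorph.mulRight g⁻¹) ⁻¹' {u : G | u ∈ U ∧ u • g • x ∈ A} := by
    ext u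
    simp [smul_smul]
  have h2 : ∀ s : Set G, IsMeagre s → IsMeagre ((Homeomorph.mulRight g⁻¹) ⁻¹' s) := by
    intro s hs
    exact hs.preimage_of_isOpenMap (Homeomorph.mulRight g⁻¹).continuous
      (Homeomorph.mulRight g⁻¹).isOpenMap
  have h3 : ∀ s : Set G, IsMeagre ((Homeomorph.mulRight g⁻¹) ⁻¹' s) → IsMeagre s := by
    intro s hs
    have := hs.preimage_of_isOpenMap (Homeomorph.mulRight g).continuous
      (Homeomorph.mulRight g).isOpenMap
    convert this using 1
    ext u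
    simp
  unfold Vt
  simp only [mem_setOf_eq]
  rw [h]
  exact not_congr ⟨h2 _, h3 _⟩

theorem exists_of_Vt {A : Set X} {U : Set G} {x : X} (h : x ∈ Vt A U) :
    ∃ g ∈ U, g • x ∈ A := by
  by_contra hc
  push Not at hc
  apply h
  have : {g : G | g ∈ U ∧ g • x ∈ A} = ∅ := by
    rw [eq_empty_iff_forall_notMem]
    rintro g ⟨h1, h2⟩
    exact hc g h1 h2
  rw [this]
  exact IsMeagre.empty

theorem Vt_of_open {A : Set X} {U S : Set G} {x : X} (hS : IsOpen S) (hn : S.Nonempty)
    (hSU : S ⊆ U) (h : ∀ g ∈ S, g • x ∈ A) : x ∈ Vt A U := by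
  intro hm
  refine not_meagre_open hS hn (hm.mono ?_)
  intro g hg
  exact ⟨hSU hg, h g hg⟩

theorem Vt_local {A : Set X} (hA : MeasurableSet A) {U : Set G} (hU : IsOpen U) {x : X}
    (hx : x ∈ Vt A U) : ∃ k, (bas G k).Nonempty ∧ bas G k ⊆ U ∧ x ∉ Vt Aᶜ (bas G k) := by
  obtain ⟨W, hW, ⟨g, hg⟩, hWU, hm⟩ := exists_open_of_not_meagre (meas_smul (G := G) hA x) hU hx
  obtain ⟨k, hk, hkW⟩ := bas_basis hW hg
  refine ⟨k, ⟨g, hk⟩, hkW.trans hWU, ?_⟩
  intro hc
  apply hc
  refine hm.mono ?_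
  rintro u ⟨h1, h2⟩
  exact ⟨hkW h1, h2⟩

theorem Vt_of_local {A : Set X} {W : Set G} (hW : IsOpen W) (hn : W.Nonempty) {x : X}
    (hx : x ∉ Vt Aᶜ W) : x ∈ Vt A W := by
  intro hm
  have hx' : IsMeagre {g : G | g ∈ W ∧ g • x ∈ Aᶜ} := not_not.1 hx
  refine not_meagre_open hW hn ((hm.union hx').mono ?_)
  intro g hg
  by_cases h : g • x ∈ A
  · exact Or.inl ⟨hg, h⟩
  · exact Or.inr ⟨hg, h⟩

theorem Vt_shift {A : Set X} {U W : Set G} {x : X} {o : G} (hx : x ∈ Vt A U)
    (h : ∀ u ∈ U, u * o⁻¹ ∈ W) : o • x ∈ Vt A W := by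
  rw [Vt_smul]
  exact Vt_mono (Subset.refl _) (fun u hu => h u hu) hx

theorem Vt_unshift {A : Set X} {U W : Set G} {x : X} {o : G} (hx : o • x ∈ Vt A U)
    (h : ∀ u ∈ U, u * o ∈ W) : x ∈ Vt A W := by
  have := Vt_shift (W := W) (o := o⁻¹) hx (by simpa using h)
  simpa using this

/-- shrinking the open set -/
theorem Vt_shrink {A : Set X} {W : Set G} (hW : IsOpen W) {x : X} (hx : x ∈ Vt A W) :
    ∃ i, ∃ O : Set G, IsOpen O ∧ 1 ∈ O ∧ x ∈ Vt A (bas G i) ∧
      ∀ u ∈ bas G i, ∀ o ∈ O, u * o ∈ W := by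
  obtain ⟨i, ⟨O, hO, h1, h⟩, hx⟩ := Vt_basic (x := x)
    (fun i => ∃ O : Set G, IsOpen O ∧ 1 ∈ O ∧ ∀ u ∈ bas G i, ∀ o ∈ O, u * o ∈ W) (fun g hg => by
      have hc : Continuous fun p : G × G => p.1 * p.2 := continuous_mul
      have ho : IsOpen ((fun p : G × G => p.1 * p.2) ⁻¹' W) := hW.preimage hc
      obtain ⟨S, T, hS, hT, hgS, h1T, hST⟩ := isOpen_prod_iff.1 ho g 1 (by simpa using hg)
      obtain ⟨i, hi, hiS⟩ := bas_basis hS hgS
      exact ⟨i, hi, T, hT, h1T, fun u hu o ho => by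
        have := hST (mk_mem_prod (hiS hu) ho)
        exact this⟩) hx
  exact ⟨i, O, hO, h1, hx, h⟩

theorem Vt_open {A : Set X} {W : Set G} (hW : IsOpen W) (z : X) :
    IsOpen {v : G | v • z ∈ Vt A W} := by
  rw [isOpen_iff_forall_mem_open]
  intro v hv
  obtain ⟨i, O, hO, h1, hx, h⟩ := Vt_shrink hW hv
  refine ⟨{w | v * w⁻¹ ∈ O}, ?_, ?_, ?_⟩
  · intro w hw
    have h2 := Vt_shift (W := W) (o := w * v⁻¹) hx (fun u hu => h u hu _ (by
      have : v * w⁻¹ ∈ O := hw
      simpa using this))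
    simpa [smul_smul] using h2
  · exact hO.preimage (by fun_prop)
  · simpa using h1

end vaught

end Pool.Agent.H657.CL
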